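import Pool.Agent.Lib.MP_5349a4_pr.M.Defs2

/-!
# Small lemmas used by many modules
-/

set_option autoImplicit false
open MeasureTheory Set
open scoped ENNReal NNReal

namespace Pool.Agent.Lib.MP_5349a4_pr

section Ind

@[simp] theorem ind_true : ind True = 1 := by simp [ind]
@[simp] theorem ind_false : ind False = 0 := by simp [ind]
theorem ind_of {p : Prop} (h : p) : ind p = 1 := by simp [ind, h]
theorem ind_not {p : Prop} (h : ¬ p) : ind p = 0 := by simp [ind, h]
theorem ind_le_one (p : Prop) : ind p ≤ 1 := by unfold ind; split_ifs <;> simp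
theorem ind_ne_top (p : Prop) : ind p ≠ ∞ := ((ind_le_one p).trans_lt ENNReal.one_lt_top).ne
theorem ind_mono {p q : Prop} (h : p → q) : ind p ≤ ind q := by
  by_cases hp : p
  · rw [ind_of hp, ind_of (h hp)]
  · rw [ind_not hp]; exact zero_le
theorem ind_congr {p q : Prop} (h : p ↔ q) : ind p = ind q := by rw [propext h]
theorem ind_and (p q : Prop) : ind (p ∧ q) = ind p * ind q := by
  by_cases hp : p <;> by_cases hq : q <;> simp [ind, hp, hq]
theorem ind_or_le (p q : Prop) : ind (p ∨ q) ≤ ind p + ind q := by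
  by_cases hp : p <;> by_cases hq : q <;> simp [ind, hp, hq]

theorem measurable_ind {α : Type*} [MeasurableSpace α] {p : α → Prop}
    (h : MeasurableSet {a | p a}) : Measurable fun a => ind (p a) := by
  classical
  unfold ind
  exact Measurable.ite h measurable_const measurable_const

theorem lintegral_ind {α : Type*} [MeasurableSpace α] {μ : Measure α} {p : α → Prop}
    (h : MeasurableSet {a | p a}) : ∫⁻ a, ind (p a) ∂μ = μ {a | p a} := by
  classical
  have : (fun a => ind (p a)) = Set.indicator {a | p a} 1 := by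
    funext a
    by_cases ha : p a
    · rw [ind_of ha, Set.indicator_of_mem (show a ∈ {a | p a} from ha)]; rfl
    · rw [ind_not ha, Set.indicator_of_notMem (show a ∉ {a | p a} from ha)]
  rw [this, lintegral_indicator_one h]

theorem lintegral_mul_ind {α : Type*} [MeasurableSpace α] {μ : Measure α} {s : Set α}
    (h : MeasurableSet s) (f : α → ℝ≥0∞) :
    ∫⁻ a, ind (a ∈ s) * f a ∂μ = ∫⁻ a in s, f a ∂μ := by
  classical
  rw [← lintegral_indicator h]
  congr 1
  funext a
  by_cases ha : a ∈ s
  · rw [ind_of ha, Set.indicator_of_mem ha, one_mul]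
  · rw [ind_not ha, Set.indicator_of_notMem ha, zero_mul]

end Ind

section Cfg
variable {E : Type}

theorem pt_finite (ω : Cfg E) : (pt ω).Finite := Set.finite_range _

theorem mem_pt {ω : Cfg E} {e : E} : e ∈ pt ω ↔ ∃ i, ω.2 i = e := Iff.rfl

theorem con_eq_hs (adj : E → E → Prop) (P : Set E) (x y : E) :
    Con adj P x y = Hs adj (fun a => adj a y) P x := rfl

theorem tp_eq_hp [MeasurableSpace E] (adj : E → E → Prop) (ρ : Measure E) (x y : E) :
    tp adj ρ x y = hp adj ρ (fun a => adj a y) x := rfl

theorem measurable_mk [MeasurableSpace E] (k : ℕ) :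
    Measurable fun x : Fin k → E => (⟨k, x⟩ : Cfg E) := by
  intro s hs
  exact (MeasurableSpace.measurableSet_iInf.1 hs) k

/-- the measurable space on tuples: a set is measurable iff all its parts are -/
theorem measurableSet_cfg [MeasurableSpace E] {s : Set (Cfg E)} :
    MeasurableSet s ↔ ∀ k, MeasurableSet {x : Fin k → E | (⟨k, x⟩ : Cfg E) ∈ s} := by
  constructor
  · intro h k
    exact measurable_mk k h
  · intro h
    exact MeasurableSpace.measurableSet_iInf.2 fun k => h k

theorem measurable_cfg [MeasurableSpace E] {β : Type*} [MeasurableSpace β] {f : Cfg E → β} :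
    Measurable f ↔ ∀ k, Measurable fun x : Fin k → E => f ⟨k, x⟩ := by
  constructor
  · intro h k
    exact h.comp (measurable_mk k)
  · intro h s hs
    exact measurableSet_cfg.2 fun k => h k hs

end Cfg

section Euclid
variable {d : ℕ}

theorem madj_ad (r : ℝ) : MAdj (ad r : Eu d → Eu d → Prop) := by
  unfold MAdj ad
  exact measurableSet_le (measurable_fst.dist measurable_snd) measurable_const

theorem ad_symm (r : ℝ) (a b : Eu d) (h : ad r a b) : ad r b a := by
  unfold ad at *; rwa [dist_comm]

theorem finite_leb (lam : ℝ≥0) {V : Set (Eu d)} (hV : Bornology.IsBounded V) :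
    IsFiniteMeasure (leb lam V) := by
  constructor
  unfold leb
  rw [Measure.smul_apply, Measure.restrict_apply_univ, smul_eq_mul]
  exact ENNReal.mul_lt_top ENNReal.coe_lt_top hV.measure_lt_top

theorem noAtoms_leb (hd : 1 ≤ d) (lam : ℝ≥0) (V : Set (Eu d)) : NullSingletonClass (leb lam V) := by
  have : Nontrivial (Eu d) := by
    have : Nonempty (Fin d) := ⟨⟨0, by omega⟩⟩
    infer_instance
  constructor
  intro x
  unfold leb
  rw [Measure.smul_apply, smul_eq_mul]
  have : (volume : Measure (Eu d)).restrict V {x} = 0 :=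
    le_antisymm ((Measure.restrict_apply_le _ _).trans (by simp)) zero_le
  rw [this, mul_zero]

theorem leb_split (lam : ℝ≥0) {V V' : Set (Eu d)} (hV : MeasurableSet V) (hV' : MeasurableSet V')
    (h : V ⊆ V') : leb lam V' = leb lam V + leb lam (V' \ V) := by
  unfold leb
  rw [← smul_add, ← Measure.restrict_union disjoint_sdiff_right (hV'.diff hV),
    Set.union_sdiff_cancel h]

theorem leb_add (lam lam' : ℝ≥0) (V : Set (Eu d)) :
    leb (lam + lam') V = leb lam V + leb lam' V := by
  unfold leb
  rw [← add_smul]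
  push_cast
  rfl

theorem lintegral_leb (lam : ℝ≥0) (V : Set (Eu d)) (f : Eu d → ℝ≥0∞) :
    ∫⁻ y, f y ∂leb lam V = lam * ∫⁻ y in V, f y := by
  unfold leb
  rw [lintegral_smul_measure, smul_eq_mul]

theorem leb_univ (lam : ℝ≥0) (V : Set (Eu d)) : leb lam V univ = lam * volume V := by
  unfold leb
  rw [Measure.smul_apply, Measure.restrict_apply_univ, smul_eq_mul]

theorem wt_eq_wgt (lam : ℝ≥0) (V : Set (Eu d)) (f : Eu d → ℝ≥0∞) (x : Eu d) :
    wt lam V f x = wgt (ad 1) (leb lam V) f x := by
  unfold wt wgt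
  rw [lintegral_leb]
  rfl

theorem dom_bal (x : Eu d) (r : ℝ) : Dom (bal x r) :=
  ⟨Metric.isClosed_closedBall.measurableSet, Metric.isBounded_closedBall⟩

theorem Dom.inter {V V' : Set (Eu d)} (h : Dom V) (h' : Dom V') : Dom (V ∩ V') :=
  ⟨h.1.inter h'.1, h.2.subset Set.inter_subset_left⟩

theorem Dom.diff {V V' : Set (Eu d)} (h : Dom V) (h' : Dom V') : Dom (V \ V') :=
  ⟨h.1.diff h'.1, h.2.subset Set.sdiff_subset⟩

end Euclid

end Pool.Agent.Lib.MP_5349a4_pr
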