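import Mathlib

/-!
# Poisson minimal spanning forest: common definitions (sections 0-3 of Paper.md)
-/

set_option autoImplicit false
open MeasureTheory Set
open scoped ENNReal NNReal

namespace Pool.Agent.Lib.MP_5349a4_pr

/-! ## Configurations and the Poisson law on a finite measure space -/

/-- Sample space: finite tuples of points of `E` (measurable space: the Sigma instance). -/
abbrev Cfg (E : Type) : Type := Σ k : ℕ, (Fin k → E)

/-- The configuration: the set of entries of the tuple. -/
def pt {E : Type} (ω : Cfg E) : Set E := Set.range ω.2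

open Classical in
/-- Indicator of a proposition. -/
noncomputable def ind (p : Prop) : ℝ≥0∞ := if p then 1 else 0

/-- Law of the Poisson process with finite intensity measure `ρ`: the tuple has length `k` with weight
`exp (-ρ E) / k!` times `ρ^k`. -/
noncomputable def PL {E : Type} [MeasurableSpace E] (ρ : Measure E) : Measure (Cfg E) :=
  Measure.sum fun k : ℕ =>
    (ENNReal.ofReal (Real.exp (-(ρ univ).toReal)) / (k.factorial : ℝ≥0∞)) •
      (Measure.pi fun _ : Fin k => ρ).map (Sigma.mk k)

/-- `f` is a measurable functional of the configuration. -/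
def CM {E : Type} [MeasurableSpace E] (f : Set E → ℝ≥0∞) : Prop :=
  Measurable fun ω : Cfg E => f (pt ω)

/-- `A` is a measurable event. -/
def ME {E : Type} [MeasurableSpace E] (A : Set E → Prop) : Prop :=
  MeasurableSet {ω : Cfg E | A (pt ω)}

/-- Stopping set (paper (P6)). -/
structure Stop {E : Type} [MeasurableSpace E] (W : Set E → Set E) : Prop where
  meas : MeasurableSet {q : E × Cfg E | q.1 ∈ W (pt q.2)}
  stop : ∀ P Q : Set E, P.Finite → Q.Finite → Q ∩ W P = P ∩ W P → W Q = W P

/-! ## Clusters for an adjacency relation -/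

section Graph
variable {E : Type}

/-- one step from `a` to a point `b` of `P` -/
def step (adj : E → E → Prop) (P : Set E) (a b : E) : Prop := adj a b ∧ b ∈ P

/-- `cl adj P x`: `x` and all points of `P` reachable from `x` by chains with points in `P`. -/
def cl (adj : E → E → Prop) (P : Set E) (x : E) : Set E :=
  {p | Relation.ReflTransGen (step adj P) x p}

/-- some point of `cl adj P x` satisfies `s` -/
def Hs (adj : E → E → Prop) (s : E → Prop) (P : Set E) (x : E) : Prop := ∃ a ∈ cl adj P x, s a

/-- `y` is adjacent to `cl adj P x` -/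
def Con (adj : E → E → Prop) (P : Set E) (x y : E) : Prop := ∃ a ∈ cl adj P x, adj a y

/-- the points of `P` connected to `x` (`C(x;P)` of the paper) -/
def clus (adj : E → E → Prop) (P : Set E) (x : E) : Set E := {p ∈ P | Con adj P x p}

/-- number of points of `P` connected to `x` -/
noncomputable def cnt (adj : E → E → Prop) (P : Set E) (x : E) : ℝ≥0∞ :=
  ∑' p : P, ind (Con adj P x p)

/-- measurable adjacency -/
def MAdj [MeasurableSpace E] (adj : E → E → Prop) : Prop :=
  MeasurableSet {q : E × E | adj q.1 q.2}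

variable [MeasurableSpace E]

/-- hitting probability `P(H_s(x))` -/
noncomputable def hp (adj : E → E → Prop) (ρ : Measure E) (s : E → Prop) (x : E) : ℝ≥0∞ :=
  PL ρ {ω | Hs adj s (pt ω) x}

/-- two-point function `τ(x,y) = P(y adj cl(x;P))` -/
noncomputable def tp (adj : E → E → Prop) (ρ : Measure E) (x y : E) : ℝ≥0∞ :=
  PL ρ {ω | Con adj (pt ω) x y}

/-- three-point function `P(y, z adj cl(x;P))` -/
noncomputable def tp2 (adj : E → E → Prop) (ρ : Measure E) (x y z : E) : ℝ≥0∞ :=
  PL ρ {ω | Con adj (pt ω) x y ∧ Con adj (pt ω) x z}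

/-- expected weight of the cluster: `f x + E ∑_{p ∈ C(x;P)} f p` -/
noncomputable def wgt (adj : E → E → Prop) (ρ : Measure E) (f : E → ℝ≥0∞) (x : E) : ℝ≥0∞ :=
  f x + ∫⁻ y, tp adj ρ x y * f y ∂ρ

end Graph

/-! ## The Euclidean model -/

/-- `ℝ^d` -/
abbrev Eu (d : ℕ) : Type := EuclideanSpace ℝ (Fin d)

/-- adjacency at radius `r` -/
def ad {d : ℕ} (r : ℝ) (a b : Eu d) : Prop := dist a b ≤ r

/-- intensity `lam` on `V` -/
noncomputable def leb {d : ℕ} (lam : ℝ≥0) (V : Set (Eu d)) : Measure (Eu d) :=
  (lam : ℝ≥0∞) • (volume : Measure (Eu d)).restrict V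

/-- closed ball -/
def bal {d : ℕ} (x : Eu d) (r : ℝ) : Set (Eu d) := Metric.closedBall x r

/-- two-point function in the domain `V` at radius one -/
noncomputable def tau {d : ℕ} (lam : ℝ≥0) (V : Set (Eu d)) (x y : Eu d) : ℝ≥0∞ :=
  tp (ad 1) (leb lam V) x y

end Pool.Agent.Lib.MP_5349a4_pr
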