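import Pool.Agent.Lib.MP_5349a4_pr.M.Defs

/-!
# Definitions for sections 3-6 of Paper.md (Euclidean two-point function at radius one)
-/

set_option autoImplicit false
open MeasureTheory Set
open scoped ENNReal NNReal

namespace Pool.Agent.Lib.MP_5349a4_pr

/-- bounded measurable domain -/
def Dom {d : ℕ} (V : Set (Eu d)) : Prop := MeasurableSet V ∧ Bornology.IsBounded V

/-- The facts about the two-point function used by the analytic part. -/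
structure TauFacts (d : ℕ) : Prop where
  meas : ∀ (lam : ℝ≥0) (V : Set (Eu d)), Dom V →
    Measurable fun q : Eu d × Eu d => tau lam V q.1 q.2
  le_one : ∀ (lam : ℝ≥0) (V : Set (Eu d)) (x y : Eu d), Dom V → tau lam V x y ≤ 1
  one : ∀ (lam : ℝ≥0) (V : Set (Eu d)) (x y : Eu d), Dom V → dist x y ≤ 1 → tau lam V x y = 1
  null : ∀ (lam : ℝ≥0) (V : Set (Eu d)) (x y : Eu d), Dom V → volume V = 0 →
    tau lam V x y = ind (dist x y ≤ 1)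
  symm : ∀ (lam : ℝ≥0) (V : Set (Eu d)) (x y : Eu d), Dom V → tau lam V x y = tau lam V y x
  mono : ∀ (lam : ℝ≥0) (V V' : Set (Eu d)) (x y : Eu d), Dom V → Dom V' → V ⊆ V' →
    tau lam V x y ≤ tau lam V' x y
  monoL : ∀ (lam lam' : ℝ≥0) (V : Set (Eu d)) (x y : Eu d), Dom V → lam ≤ lam' →
    tau lam V x y ≤ tau lam' V x y
  lip : ∀ (lam lam' : ℝ≥0) (V : Set (Eu d)) (x y : Eu d), Dom V → lam ≤ lam' →
    tau lam' V x y ≤ tau lam V x y + ((lam' - lam : ℝ≥0) : ℝ≥0∞) * volume V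
  iso : ∀ (lam : ℝ≥0) (V : Set (Eu d)) (x y : Eu d) (e : Eu d ≃ᵢ Eu d), Dom V →
    tau lam (e '' V) (e x) (e y) = tau lam V x y
  supp : ∀ (lam : ℝ≥0) (V : Set (Eu d)) (x y : Eu d) (r : ℝ), Dom V → 0 ≤ r → V ⊆ bal x r →
    r + 1 < dist x y → tau lam V x y = 0
  sl : ∀ (lam : ℝ≥0) (V V' : Set (Eu d)) (x y : Eu d), Dom V → Dom V' → V ⊆ V' →
    tau lam V' x y ≤ tau lam V x y + lam * ∫⁻ z in V' \ V, tau lam V x z * tau lam V' z y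
  union : ∀ (lam : ℝ≥0) (V : Set (Eu d)) (x y : Eu d), Dom V →
    tau lam V x y ≤ ind (dist x y ≤ 1) + lam * ∫⁻ z in V ∩ bal y 1, tau lam V x z

section
variable {d : ℕ}

/-- mean weight of the cluster of `x` in `V`: `f x + lam ∫_V τ^V(x,y) f y dy` -/
noncomputable def wt (lam : ℝ≥0) (V : Set (Eu d)) (f : Eu d → ℝ≥0∞) (x : Eu d) : ℝ≥0∞ :=
  f x + lam * ∫⁻ y in V, tau lam V x y * f y

/-- exit density of the ball of radius `s` started at its centre (`ν_0^s`) -/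
noncomputable def ex (lam : ℝ≥0) (s : ℝ) (y : Eu d) : ℝ≥0∞ :=
  lam * tau lam (bal 0 s) 0 y * ind (s < ‖y‖)

/-- infinite volume two-point function -/
noncomputable def tI (lam : ℝ≥0) (z : Eu d) : ℝ≥0∞ := ⨆ n : ℕ, tau lam (bal 0 (n : ℝ)) 0 z

/-- convolution -/
noncomputable def conv (f g : Eu d → ℝ≥0∞) (z : Eu d) : ℝ≥0∞ := ∫⁻ u, f u * g (z - u)

end

/-- exit mass of the ball of radius `s` -/
noncomputable def phi (d : ℕ) (lam : ℝ≥0) (s : ℝ) : ℝ≥0∞ := ∫⁻ y : Eu d, ex lam s y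

/-- `V(r) = 1 + E|C(0; P ∩ B_r)|` -/
noncomputable def vol (d : ℕ) (lam : ℝ≥0) (r : ℝ) : ℝ≥0∞ :=
  wt lam (bal (0 : Eu d) r) (fun _ => 1) 0

/-- susceptibility -/
noncomputable def chi (d : ℕ) (lam : ℝ≥0) : ℝ≥0∞ := ⨆ n : ℕ, vol d lam n

/-- `g = 1/(6400 d)` -/
noncomputable def gd (d : ℕ) : ℝ≥0 := 1 / (6400 * (d : ℝ≥0))

/-- `Γ = 12800 d` -/
noncomputable def Gam (d : ℕ) : ℝ≥0 := 12800 * (d : ℝ≥0)

/-- hypothesis (H) -/
def Hyp (d : ℕ) (lam : ℝ≥0) : Prop := ∀ s : ℝ, 0 ≤ s → phi d lam s ≤ 1 + (gd d : ℝ≥0∞)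

/-- triangle diagram with one leg at least `t` -/
noncomputable def tri (d : ℕ) (lam : ℝ≥0) (t : ℝ) : ℝ≥0∞ :=
  (lam : ℝ≥0∞) ^ 2 * ∫⁻ u : Eu d, ind (t ≤ ‖u‖) * (tI lam u * conv (tI lam) (tI lam) u)

/-- square diagram with one leg at least `t` -/
noncomputable def box (d : ℕ) (lam : ℝ≥0) (t : ℝ) : ℝ≥0∞ :=
  (lam : ℝ≥0∞) ^ 3 *
    ∫⁻ u : Eu d, ind (t ≤ ‖u‖) * (tI lam u * conv (tI lam) (conv (tI lam) (tI lam)) u)

/-- `K(t) = 2 tri(t) + box(t)` -/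
noncomputable def Kt (d : ℕ) (lam : ℝ≥0) (t : ℝ) : ℝ≥0∞ := 2 * tri d lam t + box d lam t

/-- `Err(s)` -/
noncomputable def Err (d : ℕ) (lam : ℝ≥0) (s : ℝ) : ℝ≥0∞ :=
  wt lam (bal (0 : Eu d) s) (fun b => Kt d lam (s - ‖b‖)) 0

/-- number of cluster points of the centre of `B_s` at depth less than `k` -/
noncomputable def dep (d : ℕ) (lam : ℝ≥0) (s k : ℝ) : ℝ≥0∞ :=
  wt lam (bal (0 : Eu d) s) (fun b => ind (s - ‖b‖ < k)) 0

/-- iterated convolution `τ^{*j}`, `j ≥ 1` (`cpow f 0 = f`) -/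
noncomputable def cpow {d : ℕ} (f : Eu d → ℝ≥0∞) : ℕ → Eu d → ℝ≥0∞
  | 0 => f
  | n + 1 => conv f (cpow f n)

/-- the supersolution of step (5.2) -/
noncomputable def Fr {d : ℕ} (r : ℝ) (x : Eu d) : ℝ≥0∞ :=
  ENNReal.ofReal (Real.sqrt (r + 3 - ‖x‖)) * ind (‖x‖ ≤ r + 1)

open Classical in
/-- the step size of (5.2) -/
noncomputable def sr {d : ℕ} (r : ℝ) (x : Eu d) : ℝ := if r - ‖x‖ < 2 then 0 else (r - ‖x‖) / 2

/-- Output of the critical analysis (Theorem A). -/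
structure Crit (d : ℕ) (lam : ℝ≥0) (κ : ℕ) (A : ℝ≥0) : Prop where
  hd : 1000 * κ ^ 2 ≤ d
  hκ : 1 ≤ κ
  hlam : 0 < lam
  hA : 1 ≤ A
  a1 : ∀ (V : Set (Eu d)) (x y : Eu d) (R : ℝ), Dom V → 1 ≤ R →
    wt lam V (fun b => ind (b ∈ bal y R)) x ≤ A * ENNReal.ofReal (R ^ κ)
  a2 : ∀ (V : Set (Eu d)) (x y : Eu d), Dom V → 1 ≤ dist x y →
    tau lam V x y * ENNReal.ofReal (dist x y ^ (d - κ)) ≤ A
  a3 : ∀ s : ℝ, 0 ≤ s → 1 ≤ phi d lam s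

end Pool.Agent.Lib.MP_5349a4_pr
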