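import Pool.Agent.Lib.MP_5349a4_pr.M.Defs2

/-!
# Definitions for sections 7-10 of Paper.md (green points, invasion percolation)
-/

set_option autoImplicit false
open MeasureTheory Set
open scoped ENNReal NNReal

namespace Pool.Agent.Lib.MP_5349a4_pr

section
variable {d : ℕ}

/-! ## Green points: `N` = points which are not green, `G` = green points -/

/-- `x` is connected at radius `r` (through `N ∪ G`) to a green point -/
def gco (r : ℝ) (N G : Set (Eu d)) (x : Eu d) : Prop := ∃ p ∈ G, p ∈ cl (ad r) (N ∪ G) x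

/-- probability that `x` is connected to a green point -/
noncomputable def gp (r : ℝ) (ρn ρg : Measure (Eu d)) (x : Eu d) : ℝ≥0∞ :=
  ((PL ρn).prod (PL ρg)) {q | gco r (pt q.1) (pt q.2) x}

/-- closed `r`-neighbourhood of a set -/
def nbd (r : ℝ) (K : Set (Eu d)) : Set (Eu d) := {e | ∃ u ∈ K, dist e u ≤ r}

/-- points of `(N ∪ G) \ W` connected inside `(N ∪ G) \ W` to a point of `G \ W` -/
def LLs (r : ℝ) (N G W : Set (Eu d)) : Set (Eu d) :=
  {y | y ∈ (N ∪ G) \ W ∧ ∃ p ∈ G \ W, p ∈ cl (ad r) ((N ∪ G) \ W) y}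

/-- number of points of the finite set `R` with the property `p` -/
noncomputable def num (R : Finset (Eu d)) (p : Eu d → Prop) : ℝ≥0∞ := ∑ x ∈ R, ind (p x)

/-- The second and third part of the decomposition of `Z` in (8.1): pairs `(x, v)`, `x ∈ R`, `v` a
point in `W` near `LL` or green, connected to `x` through the unexplored points `N \ nbd r LL`. -/
noncomputable def Zbc (r : ℝ) (N G W : Set (Eu d)) (R : Finset (Eu d)) : ℝ≥0∞ :=
  ∑' v : ((N ∪ G) ∩ W : Set (Eu d)), ind ((v : Eu d) ∈ nbd r (LLs r N G W) ∨ (v : Eu d) ∈ G) *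
    num R fun x => Con (ad r) ((N \ nbd r (LLs r N G W)) \ {(v : Eu d)}) v x

/-- at most `Δ` points of `R` in every closed unit ball -/
def Dens (R : Set (Eu d)) (Δ : ℝ) : Prop := ∀ v : Eu d, ((R ∩ bal v 1).ncard : ℝ) ≤ Δ

/-! ## Invasion percolation -/

/-- the invaded set after `k` steps, started at `o`, in the configuration `P` -/
noncomputable def inv (P : Set (Eu d)) (o : Eu d) : ℕ → Set (Eu d)
  | 0 => {o}
  | k + 1 => inv P o k ∪ {p | p ∈ P \ inv P o k ∧
      Metric.infEDist p (inv P o k) = ⨅ q ∈ P \ inv P o k, Metric.infEDist q (inv P o k)}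

/-- the label of step `k`: distance from `R_k` to the rest of `P` -/
noncomputable def lab (P : Set (Eu d)) (o : Eu d) (k : ℕ) : ℝ≥0∞ :=
  ⨅ q ∈ P \ inv P o k, Metric.infEDist q (inv P o k)

/-- the explored region before step `k` -/
def wet (P : Set (Eu d)) (o : Eu d) (k : ℕ) : Set (Eu d) :=
  {e | ∃ j < k, Metric.infEDist e (inv P o j) ≤ lab P o j}

/-- the labels before step `i` are below the thresholds -/
def good (thr : ℕ → ℝ) (P : Set (Eu d)) (o : Eu d) (i : ℕ) : Prop :=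
  ∀ j < i, lab P o j ≤ ENNReal.ofReal (thr j)

/-- the thresholds of section 8: `1` before `m0`, then `1 + (2^k m0)^(-1/(6κ))` on `[2^k m0, 2^(k+1) m0)` -/
noncomputable def thr (κ m0 j : ℕ) : ℝ :=
  if j < m0 then 1 else 1 + (((2 ^ Nat.log 2 (j / m0) * m0 : ℕ) : ℝ)) ^ (-(1 / (6 * (κ : ℝ))))

/-- distinct pairs of points have distinct distances -/
def Gen (Q : Set (Eu d)) : Prop :=
  ∀ a ∈ Q, ∀ b ∈ Q, ∀ c ∈ Q, ∀ e ∈ Q, a ≠ b → c ≠ e → dist a b = dist c e →
    (a = c ∧ b = e) ∨ (a = e ∧ b = c)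

/-- `P` and `o` are in general position -/
def GenO (P : Set (Eu d)) (o : Eu d) : Prop := o ∉ P ∧ Gen (insert o P)

/-- union of the radius `r` clusters of the points of `R` (including `R`) -/
def CLr (r : ℝ) (P R : Set (Eu d)) : Set (Eu d) := {p | ∃ x ∈ R, p ∈ cl (ad r) P x}

/-- the points invaded at step `i` (a singleton for general position) -/
noncomputable def newp (P : Set (Eu d)) (o : Eu d) : ℕ → Set (Eu d)
  | 0 => {o}
  | i + 1 => inv P o (i + 1) \ inv P o i

/-- number of points of `A` among the new points of step `i` -/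
noncomputable def nnew (P : Set (Eu d)) (o : Eu d) (i : ℕ) (f : Eu d → ℝ≥0∞) : ℝ≥0∞ :=
  ∑' p : newp P o i, f p

/-- `∑_{i<n} 1[good i] f(x_i)` -/
noncomputable def occ (th : ℕ → ℝ) (P : Set (Eu d)) (o : Eu d) (n : ℕ) (f : Eu d → ℝ≥0∞) : ℝ≥0∞ :=
  ∑ i ∈ Finset.range n, ind (good th P o i) * nnew P o i f

/-- step `j` is an attempt: `j = 0` or the label of the step leading to `x_j` exceeds one -/
def att (P : Set (Eu d)) (o : Eu d) : ℕ → Prop
  | 0 => True
  | j + 1 => 1 < lab P o j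

end

/-- `M_L(h)` at intensity `lam`, radius `r`: the origin is connected to a green point in `B_L` -/
noncomputable def magL (d : ℕ) (lam : ℝ≥0) (r : ℝ) (h : ℝ≥0) (L : ℝ) : ℝ≥0∞ :=
  gp r (leb (lam * (1 - h)) (bal (0 : Eu d) L)) (leb (lam * h) (bal (0 : Eu d) L)) 0

/-- magnetization -/
noncomputable def Mag (d : ℕ) (lam : ℝ≥0) (r : ℝ) (h : ℝ≥0) : ℝ≥0∞ := ⨆ L : ℕ, magL d lam r h L

/-- intensity which is critical at radius `r` if `lam` is critical at radius one -/
noncomputable def lamr (d : ℕ) (lam : ℝ≥0) (r : ℝ) : ℝ≥0 := lam / Real.toNNReal (r ^ d)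

/-- `μ_n(f) = E ∑_{i<n} 1[good i] f(x_i)` in the ball of radius `L` -/
noncomputable def mun (d : ℕ) (lam : ℝ≥0) (th : ℕ → ℝ) (L : ℝ) (n : ℕ) (f : Eu d → ℝ≥0∞) : ℝ≥0∞ :=
  ∫⁻ ω, occ th (pt ω) 0 n f ∂PL (leb lam (bal (0 : Eu d) L))

/-- `P(good i)` in the ball of radius `L` -/
noncomputable def pgood (d : ℕ) (lam : ℝ≥0) (th : ℕ → ℝ) (L : ℝ) (i : ℕ) : ℝ≥0∞ :=
  PL (leb lam (bal (0 : Eu d) L)) {ω | good th (pt ω) 0 i}

end Pool.Agent.Lib.MP_5349a4_pr
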