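import Pool.Agent.Lib.MP_5349a4_pr.M.Iface3

/-!
# Interfaces, part 4: two invasions, the infinite process, the forest (sections 10-11 of Paper.md)
-/

set_option autoImplicit false
open MeasureTheory Set ProbabilityTheory
open scoped ENNReal NNReal

namespace Pool.Agent.Lib.MP_5349a4_pr

/-! ## Section 10 -/

/-- RESAMP. Resampling a stopping set: `(P \ W) ∪ (P' ∩ W)` is independent of `P ∩ W` and
distributed as `P`. -/
def ResampStatement : Prop :=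
  ∀ (E : Type) [MeasurableSpace E] [StandardBorelSpace E] (ρ : Measure E) [IsFiniteMeasure ρ]
    [NullSingletonClass ρ] (W : Set E → Set E) (f : Set E → Set E → ℝ≥0∞), Stop W →
    Measurable (fun q : Cfg E × Cfg E => f (pt q.1) (pt q.2)) →
    ∫⁻ ω, ∫⁻ ω', f (pt ω ∩ W (pt ω)) ((pt ω \ W (pt ω)) ∪ (pt ω' ∩ W (pt ω))) ∂PL ρ ∂PL ρ
      = ∫⁻ ω, ∫⁻ ω', f (pt ω ∩ W (pt ω)) (pt ω') ∂PL ρ ∂PL ρ

/-- MUNV. Locality and translation invariance of the occupation measure and of `P(good)`. -/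
def MunVStatement : Prop :=
  ∀ (d : ℕ) (lam : ℝ≥0) (th : ℕ → ℝ) (n : ℕ) (L L' : ℝ) (y : Eu d) (f : Eu d → ℝ≥0∞), 1 ≤ d →
    (∀ j, th j ≤ 2) → Measurable f → 2 * n + 2 ≤ L → 2 * n + 2 + ‖y‖ ≤ L' →
    ∫⁻ ω, occ th (pt ω) y n f ∂PL (leb lam (bal (0 : Eu d) L'))
      = mun d lam th L n (fun b => f (b + y)) ∧
    PL (leb lam (bal (0 : Eu d) L')) {ω | good th (pt ω) y n} = pgood d lam th L n

/-- PAIRE. The mean number of close pairs tends to zero. -/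
def PairEStatement : Prop :=
  ∀ (d k : ℕ) (C : ℝ), 2 * k + 2 ≤ d → 0 < C → ∃ C' : ℝ, 0 < C' ∧
    ∀ (lam : ℝ≥0) (th : ℕ → ℝ) (L : ℝ) (n : ℕ),
      (∀ s : ℝ, 1 ≤ s → mun d lam th L n (fun b => ind (b ∈ bal 0 s))
        ≤ ENNReal.ofReal (C * s ^ k)) →
      (∀ v : Eu d, 5 ≤ ‖v‖ → mun d lam th L n (fun b => ind (b ∈ bal v 4))
        ≤ ENNReal.ofReal (C / ‖v‖ ^ (d - 1 - k))) →
      ∀ y : Eu d, 40 ≤ ‖y‖ →
        mun d lam th L n (fun b => mun d lam th L n fun p => ind (dist p (b + y) ≤ 4))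
          ≤ ENNReal.ofReal (C' / ‖y‖)

/-- TWO (section 10). -/
def TwoStatement : Prop :=
  ∀ (d : ℕ) (lam : ℝ≥0) (κ : ℕ) (A : ℝ≥0), Crit d lam κ A →
    ∃ (y₀ : Eu d) (c : ℝ≥0), 10 ≤ ‖y₀‖ ∧ 0 < c ∧ ∀ (x y : Eu d) (n : ℕ) (L : ℝ),
      x ∈ bal 0 1 → y ∈ bal y₀ 1 → 2 * n + ‖y₀‖ + 10 ≤ L →
      (c : ℝ≥0∞) ≤ PL (leb lam (bal (0 : Eu d) L))
        {ω | (∀ j < n, lab (insert y (pt ω)) x j ≤ 2) ∧ (∀ j < n, lab (insert x (pt ω)) y j ≤ 2) ∧
          Disjoint (inv (insert y (pt ω)) x n) (inv (insert x (pt ω)) y n)}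

/-! ## Section 11: the infinite process -/

/-- integer vector -/
noncomputable def ivec {d : ℕ} (z : Fin d → ℤ) : Eu d := WithLp.toLp 2 fun i => (z i : ℝ)

/-- A Poisson process with unit intensity, with the properties we use. -/
structure IsProc (d : ℕ) {Ω : Type} [MeasurableSpace Ω] (Pr : Measure Ω)
    (S : Ω → Set (Eu d)) : Prop where
  prob : IsProbabilityMeasure Pr
  lf : ∀ ω, LF (S ω)
  enum : ∃ (X : ℕ → Ω → Eu d) (B : ℕ → Set Ω), (∀ n, Measurable (X n)) ∧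
    (∀ n, MeasurableSet (B n)) ∧ ∀ ω, S ω = {x | ∃ n, ω ∈ B n ∧ X n ω = x}
  law : ∀ V : Set (Eu d), Dom V → ∀ f : Set (Eu d) → ℝ≥0∞, CM f →
    Measurable (fun ω => f (S ω ∩ V)) ∧
    ∫⁻ ω, f (S ω ∩ V) ∂Pr = ∫⁻ ω', f (pt ω') ∂PL (leb 1 V)
  shift : ∀ z : Fin d → ℤ, ∃ θ : Ω → Ω, MeasurePreserving θ Pr Pr ∧
    ∀ ω, S (θ ω) = (fun x => x + ivec z) '' S ω

/-- PROC (11.1). Existence: product over the unit cubes. -/
def ProcStatement : Prop :=
  ∀ d : ℕ, 1 ≤ d → ∃ (Ω : Type) (mΩ : MeasurableSpace Ω) (Pr : Measure Ω) (S : Ω → Set (Eu d)),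
    IsProc d Pr S

/-- FROZ. The hypotheses of the frozen statement. -/
def FrozStatement : Prop :=
  ∀ (d : ℕ) (Ω : Type) [MeasurableSpace Ω] (Pr : Measure Ω) (S : Ω → Set (Eu d)), 1 ≤ d →
    IsProc d Pr S →
    (∀ A : Set (Eu d), MeasurableSet A → Bornology.IsBounded A →
      Pr.map (fun ω => (S ω ∩ A).ncard) = (poissonPMF (volume A).toNNReal).toMeasure) ∧
    (∀ (k : ℕ) (A : Fin k → Set (Eu d)), (∀ i, MeasurableSet (A i)) →
      (∀ i, Bornology.IsBounded (A i)) → Pairwise (fun i j => Disjoint (A i) (A j)) →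
      iIndepFun (fun i ω => (S ω ∩ A i).ncard) Pr)

/-- PGEN. Almost surely infinite and in general position. -/
def PGenStatement : Prop :=
  ∀ (d : ℕ) (Ω : Type) [MeasurableSpace Ω] (Pr : Measure Ω) (S : Ω → Set (Eu d)), 1 ≤ d →
    IsProc d Pr S → ∀ᵐ ω ∂Pr, (S ω).Infinite ∧ Gen (S ω)

/-! ## The forest, deterministic part -/

section
variable {d : ℕ}

/-- points reachable from `x` by chains in `S` with steps `< r` -/
def och (S : Set (Eu d)) (r : ℝ) (x : Eu d) : Set (Eu d) :=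
  {p | Relation.ReflTransGen (fun a b => dist a b < r ∧ b ∈ S) x p}

/-- forest edge -/
def edge (S : Set (Eu d)) (x y : Eu d) : Prop := x ∈ S ∧ y ∈ S ∧ x ≠ y ∧ y ∉ och S (dist x y) x

/-- bad edge: both open clusters infinite -/
def bad (S : Set (Eu d)) (x y : Eu d) : Prop :=
  edge S x y ∧ (och S (dist x y) x).Infinite ∧ (och S (dist x y) y).Infinite

/-- invasion tree -/
def tree (S : Set (Eu d)) (x : Eu d) : Set (Eu d) := ⋃ k : ℕ, inv S x k

/-- number of bad edges `(x,y)` with `x ∈ V` and length at most `J` -/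
noncomputable def bcount (J : ℝ) (V S : Set (Eu d)) : ℝ≥0∞ :=
  ∑' x : (S ∩ V : Set (Eu d)), ∑' y : S, ind (bad S x y ∧ dist (x : Eu d) y ≤ J)

/-- number of edges `(x,y)` with `x ∈ V` and length more than `J` -/
noncomputable def lcount (J : ℝ) (V S : Set (Eu d)) : ℝ≥0∞ :=
  ∑' x : (S ∩ V : Set (Eu d)), ∑' y : S, ind (edge S x y ∧ J < dist (x : Eu d) y)

end

/-- FORE (11.2). Trees of the end points of an edge which is not bad. -/
def ForeStatement : Prop :=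
  ∀ (d : ℕ) (S : Set (Eu d)), LF S → S.Infinite → Gen S →
    (∀ x ∈ S, (tree S x).Infinite) ∧
    ∀ x y : Eu d, edge S x y → ¬ bad S x y →
      (tree S x \ tree S y).Finite ∧ (tree S y \ tree S x).Finite

/-- CNTE (11.3), counting. -/
def CntEStatement : Prop :=
  ∀ (d : ℕ) (S A : Set (Eu d)), LF S → S.Infinite → Gen S → A ⊆ S → A.Finite →
    {q : Eu d × Eu d | q.1 ∈ A ∧ q.2 ∈ A ∧ bad S q.1 q.2}.encard
      ≤ 2 * {q : Eu d × Eu d | q.1 ∈ A ∧ q.2 ∈ S \ A ∧ edge S q.1 q.2}.encard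

/-- DEG (11.3), degrees. -/
def DegStatement : Prop :=
  ∀ d : ℕ, ∃ C : ℕ, ∀ (S : Set (Eu d)) (x : Eu d), Gen S → {y | edge S x y}.encard ≤ C

/-- BADM. Measurability. -/
def BadMStatement : Prop :=
  ∀ (d : ℕ) (Ω : Type) [MeasurableSpace Ω] (Pr : Measure Ω) (S : Ω → Set (Eu d)), 1 ≤ d →
    IsProc d Pr S → ∀ (J : ℝ) (V : Set (Eu d)), MeasurableSet V →
      Measurable (fun ω => bcount J V (S ω)) ∧ Measurable (fun ω => lcount J V (S ω))

/-- BADN (11.3). No bad edges. -/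
def BadNStatement : Prop :=
  ∀ (d : ℕ) (Ω : Type) [MeasurableSpace Ω] (Pr : Measure Ω) (S : Ω → Set (Eu d)), 1 ≤ d →
    IsProc d Pr S → ∀ᵐ ω ∂Pr, ∀ x y : Eu d, ¬ bad (S ω) x y

/-- INVSC. Scaling and translation of the invasion, and the points inserted. -/
def InvScStatement : Prop :=
  ∀ (d : ℕ) (P : Set (Eu d)) (o : Eu d) (k : ℕ),
    inv (P \ {o}) o k = inv P o k ∧ lab (P \ {o}) o k = lab P o k ∧
    (∀ c : ℝ, 0 < c → inv ((fun z => c • z) '' P) (c • o) k = (fun z => c • z) '' inv P o k ∧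
      lab ((fun z => c • z) '' P) (c • o) k = ENNReal.ofReal c * lab P o k) ∧
    (∀ v : Eu d, inv ((fun z => z + v) '' P) (o + v) k = (fun z => z + v) '' inv P o k ∧
      lab ((fun z => z + v) '' P) (o + v) k = lab P o k) ∧
    (∀ e : Eu d ≃ₗᵢ[ℝ] Eu d, inv (e '' P) (e o) k = e '' inv P o k ∧
      lab (e '' P) (e o) k = lab P o k)

/-- MEET (11.4). Two disjoint invasion trees with positive probability. -/
def MeetStatement : Prop :=
  ∀ (d : ℕ) (lam : ℝ≥0) (κ : ℕ) (A : ℝ≥0), Crit d lam κ A →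
    ∀ (Ω : Type) [MeasurableSpace Ω] (Pr : Measure Ω) (S : Ω → Set (Eu d)), IsProc d Pr S →
      0 < Pr {ω | ∃ x ∈ S ω, ∃ y ∈ S ω, Disjoint (tree (S ω) x) (tree (S ω) y)}

/-- FINAL. The frozen statement S19320. -/
def FinalStatement : Prop :=
    ¬ (∀ d : ℕ, 3 ≤ d →
    ∀ (Ω : Type) [MeasurableSpace Ω] (P : Measure Ω) [IsProbabilityMeasure P]
      (S : Ω → Set (EuclideanSpace ℝ (Fin d))),
      (∀ (ω : Ω) (A : Set (EuclideanSpace ℝ (Fin d))),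
          Bornology.IsBounded A → (S ω ∩ A).Finite) →
      (∀ A : Set (EuclideanSpace ℝ (Fin d)), MeasurableSet A → Bornology.IsBounded A →
          P.map (fun ω => (S ω ∩ A).ncard)
            = (ProbabilityTheory.poissonPMF (volume A).toNNReal).toMeasure) →
      (∀ (k : ℕ) (A : Fin k → Set (EuclideanSpace ℝ (Fin d))),
          (∀ i, MeasurableSet (A i)) → (∀ i, Bornology.IsBounded (A i)) →
          Pairwise (fun i j => Disjoint (A i) (A j)) →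
          ProbabilityTheory.iIndepFun (fun i ω => (S ω ∩ A i).ncard) P) →
      ∀ᵐ ω ∂P, ∀ x ∈ S ω, ∀ y ∈ S ω,
        ∃ n : ℕ, ∃ w : ℕ → EuclideanSpace ℝ (Fin d),
          w 0 = x ∧ w n = y ∧ (∀ i ≤ n, w i ∈ S ω) ∧
          ∀ i < n, w i ≠ w (i + 1) ∧
            ¬ ∃ k : ℕ, ∃ z : ℕ → EuclideanSpace ℝ (Fin d),
                z 0 = w i ∧ z k = w (i + 1) ∧ (∀ j ≤ k, z j ∈ S ω) ∧
                ∀ j < k, dist (z (j + 1)) (z j) < dist (w i) (w (i + 1)))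

end Pool.Agent.Lib.MP_5349a4_pr
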