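import Pool.Agent.Lib.MP_5349a4_pr.M.Defs

/-!
# Interfaces, part 1: Poisson calculus, BK, tree-graph, Simon-Lieb (sections 1-3 of Paper.md)

Every `XStatement : Prop` is one module. `E` is always a standard Borel space, measures are finite
without atoms where needed.
-/

set_option autoImplicit false
open MeasureTheory Set
open scoped ENNReal NNReal

namespace Pool.Agent.Lib.MP_5349a4_pr

/-! ## 1. Poisson calculus -/

/-- MRESTR. Restriction to a (parametrised) measurable set is realised by a measurable map on tuples. -/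
def MRestrStatement : Prop :=
  ∀ (T E : Type) [MeasurableSpace T] [MeasurableSpace E] (A : Set (T × E)), MeasurableSet A →
    ∃ r : T × Cfg E → Cfg E, Measurable r ∧ ∀ t ω, pt (r (t, ω)) = {e | e ∈ pt ω ∧ (t, e) ∈ A}

/-- MOPS. Union, insertion and image are realised by measurable maps on tuples. -/
def MOpsStatement : Prop :=
  (∀ (E : Type) [MeasurableSpace E], ∃ a : Cfg E × Cfg E → Cfg E, Measurable a ∧
      ∀ ω ω', pt (a (ω, ω')) = pt ω ∪ pt ω') ∧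
  (∀ (E : Type) [MeasurableSpace E], ∃ c : E × Cfg E → Cfg E, Measurable c ∧
      ∀ e ω, pt (c (e, ω)) = insert e (pt ω)) ∧
  (∀ (E E' : Type) [MeasurableSpace E] [MeasurableSpace E'] (e : E → E'), Measurable e →
    ∃ m : Cfg E → Cfg E', Measurable m ∧ ∀ ω, pt (m ω) = e '' pt ω)

/-- MSUM. Sums over points, existence of points and of subsets are measurable. -/
def MSumStatement : Prop :=
  (∀ (T E : Type) [MeasurableSpace T] [MeasurableSpace E] [StandardBorelSpace E]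
      (g : T → E → Set E → ℝ≥0∞),
      Measurable (fun q : T × E × Cfg E => g q.1 q.2.1 (pt q.2.2)) →
      Measurable (fun q : T × Cfg E => ∑' p : (pt q.2 : Set E), g q.1 p (pt q.2))) ∧
  (∀ (T E : Type) [MeasurableSpace T] [MeasurableSpace E] (S : T → E → Set E → Prop),
      MeasurableSet {q : T × E × Cfg E | S q.1 q.2.1 (pt q.2.2)} →
      MeasurableSet {q : T × Cfg E | ∃ p ∈ pt q.2, S q.1 p (pt q.2)}) ∧
  (∀ (T E : Type) [MeasurableSpace T] [MeasurableSpace E] [StandardBorelSpace E]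
      (S : T → Set E → Set E → Prop),
      MeasurableSet {q : T × Cfg E × Cfg E | S q.1 (pt q.2.1) (pt q.2.2)} →
      MeasurableSet {q : T × Cfg E | ∃ I ⊆ pt q.2, S q.1 I (pt q.2 \ I)})

/-- PROB. The Poisson law is a probability; configurations are finite; without mass outside `A`
all points are in `A`; a null set is avoided. -/
def ProbStatement : Prop :=
  ∀ (E : Type) [MeasurableSpace E] (ρ : Measure E) [IsFiniteMeasure ρ],
    IsProbabilityMeasure (PL ρ) ∧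
    ∀ N : Set E, MeasurableSet N → ρ N = 0 → ∀ᵐ ω ∂PL ρ, ∀ p ∈ pt ω, p ∉ N

/-- SUPER (P2). Superposition. -/
def SuperStatement : Prop :=
  ∀ (E : Type) [MeasurableSpace E] (ρ σ : Measure E) [IsFiniteMeasure ρ] [IsFiniteMeasure σ]
    (f : Set E → ℝ≥0∞), CM f →
    ∫⁻ ω, f (pt ω) ∂PL (ρ + σ) = ∫⁻ ω, ∫⁻ ω', f (pt ω ∪ pt ω') ∂PL σ ∂PL ρ

/-- IMG (P7). Image under a measurable map. -/
def ImgStatement : Prop :=
  ∀ (E E' : Type) [MeasurableSpace E] [MeasurableSpace E'] (ρ : Measure E) [IsFiniteMeasure ρ]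
    (e : E → E') (f : Set E' → ℝ≥0∞), Measurable e → CM f →
    ∫⁻ ω, f (pt ω) ∂PL (ρ.map e) = ∫⁻ ω, f (e '' pt ω) ∂PL ρ

/-- RES (P3). Restriction: the part of the process in `A` and the part outside are independent. -/
def ResStatement : Prop :=
  ∀ (E : Type) [MeasurableSpace E] (ρ : Measure E) [IsFiniteMeasure ρ] (A : Set E),
    MeasurableSet A →
    (∀ f : Set E → ℝ≥0∞, CM f → ∫⁻ ω, f (pt ω ∩ A) ∂PL ρ = ∫⁻ ω, f (pt ω) ∂PL (ρ.restrict A)) ∧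
    (∀ f : Set E → Set E → ℝ≥0∞, Measurable (fun q : Cfg E × Cfg E => f (pt q.1) (pt q.2)) →
      ∫⁻ ω, f (pt ω ∩ A) (pt ω \ A) ∂PL ρ = ∫⁻ ω, ∫⁻ ω', f (pt ω ∩ A) (pt ω' \ A) ∂PL ρ ∂PL ρ)

/-- MECKE (P4), in the form with the point inserted, and in the form with the point removed. -/
def MeckeStatement : Prop :=
  ∀ (E : Type) [MeasurableSpace E] [StandardBorelSpace E] (ρ : Measure E) [IsFiniteMeasure ρ]
    [NullSingletonClass ρ] (g : E → Set E → ℝ≥0∞), Measurable (fun q : E × Cfg E => g q.1 (pt q.2)) →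
    (∫⁻ ω, ∑' p : (pt ω : Set E), g p (pt ω) ∂PL ρ
      = ∫⁻ x, ∫⁻ ω, g x (insert x (pt ω)) ∂PL ρ ∂ρ) ∧
    (∫⁻ ω, ∑' p : (pt ω : Set E), g p (pt ω \ {(p : E)}) ∂PL ρ
      = ∫⁻ x, ∫⁻ ω, g x (pt ω) ∂PL ρ ∂ρ)

/-- SUBS (P5). Sum over subsets. -/
def SubsStatement : Prop :=
  ∀ (E : Type) [MeasurableSpace E] [StandardBorelSpace E] (ρ : Measure E) [IsFiniteMeasure ρ]
    [NullSingletonClass ρ] (g : Set E → Set E → ℝ≥0∞),
    Measurable (fun q : Cfg E × Cfg E => g (pt q.1) (pt q.2)) →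
    ∫⁻ ω, ∑' I : {I : Set E // I ⊆ pt ω}, g I (pt ω \ I) ∂PL ρ
      = ENNReal.ofReal (Real.exp (ρ univ).toReal) *
        ∫⁻ ω, ∫⁻ ω', g (pt ω) (pt ω') ∂PL ρ ∂PL ρ

/-- SMP (P6). Strong Markov property for stopping sets. -/
def SmpStatement : Prop :=
  ∀ (E : Type) [MeasurableSpace E] [StandardBorelSpace E] (ρ : Measure E) [IsFiniteMeasure ρ]
    [NullSingletonClass ρ] (W : Set E → Set E) (f : Set E → Set E → ℝ≥0∞), Stop W →
    Measurable (fun q : Cfg E × Cfg E => f (pt q.1) (pt q.2)) →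
    ∫⁻ ω, f (pt ω ∩ W (pt ω)) (pt ω \ W (pt ω)) ∂PL ρ
      = ∫⁻ ω, ∫⁻ ω', f (pt ω ∩ W (pt ω)) (pt ω' \ W (pt ω)) ∂PL ρ ∂PL ρ

/-- LIP (P8). -/
def LipStatement : Prop :=
  ∀ (E : Type) [MeasurableSpace E] (ρ σ : Measure E) [IsFiniteMeasure ρ] [IsFiniteMeasure σ]
    (f : Set E → ℝ≥0∞), CM f → (∀ P, f P ≤ 1) →
    ∫⁻ ω, f (pt ω) ∂PL (ρ + σ) ≤ ∫⁻ ω, f (pt ω) ∂PL ρ + σ univ ∧
    ∫⁻ ω, f (pt ω) ∂PL ρ ≤ ∫⁻ ω, f (pt ω) ∂PL (ρ + σ) + σ univ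

/-- COUNT (P9). Number of points in `A`: Poisson; void probability; tail. -/
def CountStatement : Prop :=
  ∀ (E : Type) [MeasurableSpace E] [StandardBorelSpace E] (ρ : Measure E) [IsFiniteMeasure ρ]
    (A : Set E), MeasurableSet A →
    PL ρ {ω | pt ω ∩ A = ∅} = ENNReal.ofReal (Real.exp (-(ρ A).toReal)) ∧
    (∀ n : ℕ, PL ρ {ω | n ≤ (pt ω ∩ A).ncard} ≤ (ρ A) ^ n / n.factorial) ∧
    ([NullSingletonClass ρ] → ∀ n : ℕ, PL ρ {ω | (pt ω ∩ A).ncard = n}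
      = ENNReal.ofReal (Real.exp (-(ρ A).toReal)) * (ρ A) ^ n / n.factorial)

/-! ## 2. Graphs, BK, tree-graph inequality -/

/-- CLB. Elementary facts about clusters, (F1)-(F4) of the paper (no measurability). -/
def ClbStatement : Prop :=
  ∀ (E : Type) (adj : E → E → Prop) (P Q : Set E) (x y : E),
    (P ⊆ Q → cl adj P x ⊆ cl adj Q x) ∧
    (cl adj P x \ {x} ⊆ clus adj P x ∧ clus adj P x ⊆ cl adj P x) ∧
    (Con adj (insert y P) x y ↔ Con adj P x y) ∧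
    ((∀ a b, adj a b → adj b a) → (Con adj P x y ↔ Con adj P y x)) ∧
    ({e | e ∈ Q ∧ Con adj P x e} = {e | e ∈ P ∧ Con adj P x e} →
      cl adj Q x = cl adj P x ∧ clus adj Q x = clus adj P x) ∧
    (∀ s : E → Prop, Hs adj s (insert y P) x → Hs adj s P x ∨ (Con adj P x y ∧ Hs adj s P y))

/-- CONM. Measurability of the connection events. -/
def ConMStatement : Prop :=
  ∀ (E : Type) [MeasurableSpace E] [StandardBorelSpace E] (adj : E → E → Prop), MAdj adj →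
    MeasurableSet {q : E × E × Cfg E | Con adj (pt q.2.2) q.1 q.2.1} ∧
    (∀ s : E → E → Prop, MeasurableSet {q : E × E | s q.1 q.2} →
      MeasurableSet {q : E × E × Cfg E | Hs adj (s q.1) (pt q.2.2) q.2.1}) ∧
    (∀ ρ : Measure E, [IsFiniteMeasure ρ] → Measurable (fun q : E × E => tp adj ρ q.1 q.2)) ∧
    Measurable (fun q : E × Cfg E => cnt adj (pt q.2) q.1)

/-- BK (2.1), two and three events. -/
def BkStatement : Prop :=
  ∀ (E : Type) [MeasurableSpace E] [StandardBorelSpace E] (ρ : Measure E) [IsFiniteMeasure ρ]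
    [NullSingletonClass ρ] (A B C : Set E → Prop), ME A → ME B → ME C →
    (∀ P Q, P ⊆ Q → A P → A Q) → (∀ P Q, P ⊆ Q → B P → B Q) → (∀ P Q, P ⊆ Q → C P → C Q) →
    PL ρ {ω | ∃ P₁ P₂ : Set E, P₁ ⊆ pt ω ∧ P₂ ⊆ pt ω ∧ Disjoint P₁ P₂ ∧ A P₁ ∧ B P₂}
      ≤ PL ρ {ω | A (pt ω)} * PL ρ {ω | B (pt ω)} ∧
    PL ρ {ω | ∃ P₁ P₂ P₃ : Set E, P₁ ⊆ pt ω ∧ P₂ ⊆ pt ω ∧ P₃ ⊆ pt ω ∧ Disjoint P₁ P₂ ∧
        Disjoint P₁ P₃ ∧ Disjoint P₂ P₃ ∧ A P₁ ∧ B P₂ ∧ C P₃}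
      ≤ PL ρ {ω | A (pt ω)} * PL ρ {ω | B (pt ω)} * PL ρ {ω | C (pt ω)}

/-- TREE (deterministic part of (2.2)). -/
def TreeStatement : Prop :=
  ∀ (E : Type) (adj : E → E → Prop) (s t : E → Prop) (P : Set E) (x : E), x ∉ P →
    Hs adj s P x → Hs adj t P x →
    (∃ P₂ P₃ : Set E, P₂ ⊆ P ∧ P₃ ⊆ P ∧ Disjoint P₂ P₃ ∧ Hs adj s P₂ x ∧ Hs adj t P₃ x) ∨
    (∃ b ∈ P, ∃ P₁ P₂ P₃ : Set E, P₁ ⊆ P \ {b} ∧ P₂ ⊆ P \ {b} ∧ P₃ ⊆ P \ {b} ∧ Disjoint P₁ P₂ ∧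
      Disjoint P₁ P₃ ∧ Disjoint P₂ P₃ ∧ Con adj P₁ x b ∧ Hs adj s P₂ b ∧ Hs adj t P₃ b)

/-- TG (2.2). Tree-graph inequality. -/
def TgStatement : Prop :=
  ∀ (E : Type) [MeasurableSpace E] [StandardBorelSpace E] (ρ : Measure E) [IsFiniteMeasure ρ]
    [NullSingletonClass ρ] (adj : E → E → Prop) (s t : E → Prop) (x : E), MAdj adj →
    MeasurableSet {a | s a} → MeasurableSet {a | t a} →
    PL ρ {ω | Hs adj s (pt ω) x ∧ Hs adj t (pt ω) x}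
      ≤ hp adj ρ s x * hp adj ρ t x + ∫⁻ b, tp adj ρ x b * (hp adj ρ s b * hp adj ρ t b) ∂ρ

/-- CAMP. Campbell formula for the cluster. -/
def CampStatement : Prop :=
  ∀ (E : Type) [MeasurableSpace E] [StandardBorelSpace E] (ρ : Measure E) [IsFiniteMeasure ρ]
    [NullSingletonClass ρ] (adj : E → E → Prop) (f : E → ℝ≥0∞) (x : E), MAdj adj → Measurable f →
    ∫⁻ ω, ∑' p : (pt ω : Set E), ind (Con adj (pt ω) x p) * f p ∂PL ρ
      = ∫⁻ p, tp adj ρ x p * f p ∂ρ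

/-- PAIR (2.3). -/
def PairStatement : Prop :=
  ∀ (E : Type) [MeasurableSpace E] [StandardBorelSpace E] (ρ : Measure E) [IsFiniteMeasure ρ]
    [NullSingletonClass ρ] (adj : E → E → Prop) (s : E → Prop) (X : ℝ≥0∞) (x : E), MAdj adj →
    MeasurableSet {a | s a} → (∀ b, 1 + ∫⁻ y, tp adj ρ b y ∂ρ ≤ X) →
    ∫⁻ ω, ind (Hs adj s (pt ω) x) * (1 + cnt adj (pt ω) x) ∂PL ρ
      ≤ X * (hp adj ρ s x + ∫⁻ b, tp adj ρ x b * hp adj ρ s b ∂ρ)

/-- SEC (2.4). -/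
def SecStatement : Prop :=
  ∀ (E : Type) [MeasurableSpace E] [StandardBorelSpace E] (ρ : Measure E) [IsFiniteMeasure ρ]
    [NullSingletonClass ρ] (adj : E → E → Prop) (X : ℝ≥0∞) (x : E), MAdj adj → (∀ a b, adj a b → adj b a) →
    (∀ b, 1 + ∫⁻ y, tp adj ρ b y ∂ρ ≤ X) →
    ∫⁻ ω, cnt adj (pt ω) x * cnt adj (pt ω) x ∂PL ρ ≤ 4 * X ^ 3

/-- EXPL. Strong Markov property for the exploration of the cluster of `x`: the points outside the
set of locations adjacent to the cluster are fresh; with a second independent process `ρ₂`. -/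
def ExplStatement : Prop :=
  ∀ (E : Type) [MeasurableSpace E] [StandardBorelSpace E] (ρ : Measure E) [IsFiniteMeasure ρ]
    [NullSingletonClass ρ] (adj : E → E → Prop) (x : E) (f : Set E → Set E → ℝ≥0∞), MAdj adj →
    Measurable (fun q : Cfg E × Cfg E => f (pt q.1) (pt q.2)) →
    ∫⁻ ω, f (clus adj (pt ω) x) {e | e ∈ pt ω ∧ ¬ Con adj (pt ω) x e} ∂PL ρ
      = ∫⁻ ω, ∫⁻ ω', f (clus adj (pt ω) x) {e | e ∈ pt ω' ∧ ¬ Con adj (pt ω) x e} ∂PL ρ ∂PL ρ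

/-! ## 3. Simon-Lieb inequality -/

/-- SLG (3.1), general form: independent processes with intensities `ρ₁`, `ρ₂`. -/
def SlgStatement : Prop :=
  ∀ (E : Type) [MeasurableSpace E] [StandardBorelSpace E] (ρ₁ ρ₂ : Measure E) [IsFiniteMeasure ρ₁]
    [IsFiniteMeasure ρ₂] [NullSingletonClass ρ₁] [NullSingletonClass ρ₂] (adj : E → E → Prop) (s : E → Prop) (x : E),
    MAdj adj → MeasurableSet {a | s a} →
    hp adj (ρ₁ + ρ₂) s x ≤ hp adj ρ₁ s x + ∫⁻ z, tp adj ρ₁ x z * hp adj (ρ₁ + ρ₂) s z ∂ρ₂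

/-- HPB. Basic properties of `hp`, `tp`: bounded by one, monotone in the intensity, symmetric,
union bound, value at adjacent points. -/
def HpbStatement : Prop :=
  ∀ (E : Type) [MeasurableSpace E] [StandardBorelSpace E] (ρ σ : Measure E) [IsFiniteMeasure ρ]
    [IsFiniteMeasure σ] [NullSingletonClass ρ] [NullSingletonClass σ] (adj : E → E → Prop) (s : E → Prop) (x y : E),
    MAdj adj → MeasurableSet {a | s a} →
    hp adj ρ s x ≤ 1 ∧ tp adj ρ x y ≤ 1 ∧ (s x → hp adj ρ s x = 1) ∧ (adj x y → tp adj ρ x y = 1) ∧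
    hp adj ρ s x ≤ hp adj (ρ + σ) s x ∧ tp adj ρ x y ≤ tp adj (ρ + σ) x y ∧
    hp adj (ρ + σ) s x ≤ hp adj ρ s x + σ univ ∧
    hp adj ρ s x ≤ ind (s x) + ∫⁻ b, tp adj ρ x b * ind (s b) ∂ρ ∧
    ((∀ a b, adj a b → adj b a) → tp adj ρ x y = tp adj ρ y x)

/-- WSL. Simon-Lieb inequality for expected weights of clusters. -/
def WslStatement : Prop :=
  ∀ (E : Type) [MeasurableSpace E] [StandardBorelSpace E] (ρ₁ ρ₂ : Measure E) [IsFiniteMeasure ρ₁]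
    [IsFiniteMeasure ρ₂] [NullSingletonClass ρ₁] [NullSingletonClass ρ₂] (adj : E → E → Prop) (f : E → ℝ≥0∞) (x : E),
    MAdj adj → Measurable f →
    wgt adj (ρ₁ + ρ₂) f x ≤ wgt adj ρ₁ f x + ∫⁻ z, tp adj ρ₁ x z * wgt adj (ρ₁ + ρ₂) f z ∂ρ₂

/-! ## 4. Reverse inequality, abstract form -/

/-- REVD. Deterministic counting behind the reverse inequality: `P₁`, `P₂` disjoint finite
configurations, `Q` = the points of `P₁` not adjacent to the `P₁`-cluster of `x`, and `P₂`. -/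
def RevDStatement : Prop :=
  ∀ (E : Type) (adj : E → E → Prop) (P₁ P₂ : Set E) (x : E), (∀ a b, adj a b → adj b a) →
    P₁.Finite → P₂.Finite → Disjoint P₁ P₂ → x ∉ P₁ → x ∉ P₂ →
    ∀ Q : Set E, Q = {e | (e ∈ P₁ ∧ ¬ Con adj P₁ x e) ∨ e ∈ P₂} →
    2 * ∑' z : P₂, ind (Con adj P₁ x z) * (1 + cnt adj (Q \ {(z : E)}) z)
      ≤ 2 * cnt adj (P₁ ∪ P₂) x
        + ∑' z : P₂, ∑' z' : P₂, ind ((z : E) ≠ z' ∧ Con adj P₁ x z ∧ Con adj P₁ x z') *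
            (ind (Con adj (Q \ {(z : E), (z' : E)}) z z') * (1 + cnt adj (Q \ {(z : E), (z' : E)}) z)
            + ind (Con adj (Q \ {(z : E), (z' : E)}) z' z) * (1 + cnt adj (Q \ {(z : E), (z' : E)}) z'))

/-- REVA (4.1), abstract form of the reverse inequality. -/
def RevAStatement : Prop :=
  ∀ (E : Type) [MeasurableSpace E] [StandardBorelSpace E] (ρ₁ ρ₂ : Measure E) [IsFiniteMeasure ρ₁]
    [IsFiniteMeasure ρ₂] [NullSingletonClass ρ₁] [NullSingletonClass ρ₂] (adj : E → E → Prop) (X : ℝ≥0∞) (x : E),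
    MAdj adj → (∀ a b, adj a b → adj b a) → X ≠ ∞ →
    (∀ b, 1 + ∫⁻ y, tp adj (ρ₁ + ρ₂) b y ∂(ρ₁ + ρ₂) ≤ X) →
    ∫⁻ z, tp adj ρ₁ x z * (1 + ∫⁻ y, tp adj (ρ₁ + ρ₂) z y ∂(ρ₁ + ρ₂)) ∂ρ₂
      ≤ X + X * ∫⁻ z, ∫⁻ w, tp2 adj ρ₁ x z w * tp adj (ρ₁ + ρ₂) z w ∂ρ₁ ∂ρ₂
        + X * ∫⁻ z, ∫⁻ z', tp2 adj ρ₁ x z z' * (tp adj (ρ₁ + ρ₂) z z'
            + ∫⁻ b, tp adj (ρ₁ + ρ₂) z b * tp adj (ρ₁ + ρ₂) b z' ∂(ρ₁ + ρ₂)) ∂ρ₂ ∂ρ₂

end Pool.Agent.Lib.MP_5349a4_pr
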