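import Pool.Agent.Lib.MP_5349a4_pr.M.Iface2
import Pool.Agent.Lib.MP_5349a4_pr.M.Defs3

/-!
# Interfaces, part 3: magnetization, invasion labels, volume growth (sections 7-9 of Paper.md)
-/

set_option autoImplicit false
open MeasureTheory Set
open scoped ENNReal NNReal

namespace Pool.Agent.Lib.MP_5349a4_pr

/-- two-type configuration as a configuration on `ℝ^d × Bool` -/
def lift2 {d : ℕ} (N G : Set (Eu d)) : Set (Eu d × Bool) :=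
  (fun x => (x, false)) '' N ∪ (fun x => (x, true)) '' G

/-- TYP. The Poisson process on `ℝ^d × Bool` is a pair of independent processes. -/
def TypStatement : Prop :=
  ∀ (d : ℕ) (ρn ρg : Measure (Eu d)) [IsFiniteMeasure ρn] [IsFiniteMeasure ρg]
    (f : Set (Eu d × Bool) → ℝ≥0∞), CM f →
    ∫⁻ ω, f (pt ω) ∂PL (ρn.map (fun x => (x, false)) + ρg.map (fun x => (x, true)))
      = ∫⁻ ωn, ∫⁻ ωg, f (lift2 (pt ωn) (pt ωg)) ∂PL ρg ∂PL ρn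

/-- TYPG. Tree-graph inequality with a green target. -/
def TypGStatement : Prop :=
  ∀ (d : ℕ) (ρn ρg : Measure (Eu d)) [IsFiniteMeasure ρn] [IsFiniteMeasure ρg]
    [NullSingletonClass ρn] [NullSingletonClass ρg] (r : ℝ) (x x' : Eu d),
    ((PL ρn).prod (PL ρg)) {q | Con (ad r) (pt q.1 ∪ pt q.2) x x' ∧ gco r (pt q.1) (pt q.2) x}
      ≤ tp (ad r) (ρn + ρg) x x' * gp r ρn ρg x
        + ∫⁻ b, tp (ad r) (ρn + ρg) x b * (tp (ad r) (ρn + ρg) b x' * gp r ρn ρg b) ∂ρn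
        + ∫⁻ b, tp (ad r) (ρn + ρg) x b * tp (ad r) (ρn + ρg) b x' ∂ρg

/-- TYPI. If `x`, `x'` are not connected, being connected to green points is negatively dependent. -/
def TypIStatement : Prop :=
  ∀ (d : ℕ) (ρn ρg : Measure (Eu d)) [IsFiniteMeasure ρn] [IsFiniteMeasure ρg]
    [NullSingletonClass ρn] [NullSingletonClass ρg] (r : ℝ) (x x' : Eu d),
    ((PL ρn).prod (PL ρg)) {q | gco r (pt q.1) (pt q.2) x ∧ gco r (pt q.1) (pt q.2) x'}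
      ≤ gp r ρn ρg x * gp r ρn ρg x' + ((PL ρn).prod (PL ρg))
        {q | Con (ad r) (pt q.1 ∪ pt q.2) x x' ∧ gco r (pt q.1) (pt q.2) x}

/-- SCAL. Scaling. -/
def ScalStatement : Prop :=
  ∀ (d : ℕ) (lam : ℝ≥0) (r : ℝ), 1 ≤ d → 0 < r →
    (∀ (V : Set (Eu d)) (x y : Eu d), Dom V →
      tp (ad r) (leb (lamr d lam r) V) x y
        = tau lam ((fun z : Eu d => r⁻¹ • z) '' V) (r⁻¹ • x) (r⁻¹ • y)) ∧
    ∀ h : ℝ≥0, h ≤ 1 → Mag d (lamr d lam r) r h = Mag d lam 1 h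

/-- MAGP. Elementary properties of the magnetization. -/
def MagPStatement : Prop :=
  ∀ (d : ℕ) (lam : ℝ≥0) (r : ℝ) (h : ℝ≥0), 1 ≤ d → 0 ≤ r → h ≤ 1 →
    (∀ L L' : ℝ, L ≤ L' → magL d lam r h L ≤ magL d lam r h L') ∧ Mag d lam r h ≤ 1 ∧
    (∀ (U : Set (Eu d)) (x : Eu d) (L : ℝ), Dom U → bal x L ⊆ U →
      magL d lam r h L ≤ gp r (leb (lam * (1 - h)) U) (leb (lam * h) U) x) ∧
    (∀ (U : Set (Eu d)) (x : Eu d), Dom U →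
      gp r (leb (lam * (1 - h)) U) (leb (lam * h) U) x ≤ Mag d lam r h) ∧
    ∀ (U W : Set (Eu d)) (x : Eu d), Dom U → MeasurableSet W →
      ((PL (leb (lam * (1 - h)) U)).prod (PL (leb (lam * h) U)))
        {q | x ∈ nbd r (LLs r (pt q.1) (pt q.2) W)} ≤ Mag d lam r h

/-- SECM. First and second moment of the cluster in a ball at criticality. -/
def SecMStatement : Prop :=
  ∀ (d : ℕ) (lam : ℝ≥0) (κ : ℕ) (A : ℝ≥0), Crit d lam κ A → ∀ R : ℝ, 1 ≤ R →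
    ENNReal.ofReal (R / 2) ≤ ∫⁻ ω, cnt (ad 1) (pt ω) 0 ∂PL (leb lam (bal (0 : Eu d) R)) ∧
    ∫⁻ ω, cnt (ad 1) (pt ω) 0 * cnt (ad 1) (pt ω) 0 ∂PL (leb lam (bal (0 : Eu d) R))
      ≤ 4 * (A * ENNReal.ofReal ((2 * R) ^ κ)) ^ 3

/-- MAG (7.1). -/
def MagStatement : Prop :=
  ∀ (d : ℕ) (lam : ℝ≥0) (κ : ℕ) (A : ℝ≥0), Crit d lam κ A →
    ∃ c h0 : ℝ≥0, 0 < c ∧ 0 < h0 ∧ h0 ≤ 1 ∧ ∀ h : ℝ≥0, 0 < h → h ≤ h0 →
      ENNReal.ofReal (c * (h : ℝ) ^ (1 - 1 / (3 * (κ : ℝ)))) ≤ Mag d lam 1 h ∧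
      (h : ℝ≥0∞) ≤ Mag d lam 1 h

/-- PZ (7.2). -/
def PzStatement : Prop :=
  ∀ (d : ℕ) (lam : ℝ≥0) (κ : ℕ) (A : ℝ≥0), Crit d lam κ A →
    ∃ c : ℝ, 0 < c ∧ ∀ R : ℝ, 1 ≤ R → ENNReal.ofReal (c / R ^ (3 * κ)) ≤
      PL (leb lam (bal (0 : Eu d) R)) {ω | R / 4 ≤ ((clus (ad 1) (pt ω) (0 : Eu d)).ncard : ℝ)}

/-- DECR (7.3) and (A2), at all radii `r ∈ [1,2]`. -/
def DecRStatement : Prop :=
  ∀ (d : ℕ) (lam : ℝ≥0) (κ : ℕ) (A : ℝ≥0), Crit d lam κ A →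
    ∃ C : ℝ, 0 < C ∧ ∀ (r : ℝ) (V : Set (Eu d)) (x y : Eu d), 1 ≤ r → r ≤ 2 → Dom V →
      tp (ad r) (leb (lamr d lam r) V) x y
        ≤ ENNReal.ofReal (C / (max 1 (dist x y)) ^ (d - κ)) ∧
      lamr d lam r * ∫⁻ b in V, tp (ad r) (leb (lamr d lam r) V) x b *
          tp (ad r) (leb (lamr d lam r) V) b y
        ≤ ENNReal.ofReal (C / (max 1 (dist x y)) ^ (d - 2 * κ))

/-- SUMR (7.4). -/
def SumRStatement : Prop :=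
  ∀ d κ : ℕ, 1 ≤ κ → 1000 * κ ^ 2 ≤ d → ∃ C : ℝ, 0 < C ∧ ∀ (a : ℕ) (R : Finset (Eu d)) (Δ : ℝ)
    (v : Eu d), (a = κ ∨ a = 2 * κ) → R.Nonempty → 1 ≤ Δ → Dens (R : Set (Eu d)) Δ →
    ∑ x ∈ R, 1 / (max 1 (dist x v)) ^ (d - a) ≤ C * Δ * (R.card : ℝ) ^ (1 / (400 * (κ : ℝ)))

/-- locally finite -/
def LF {d : ℕ} (P : Set (Eu d)) : Prop := ∀ A : Set (Eu d), Bornology.IsBounded A → (P ∩ A).Finite

/-- INVD. Deterministic facts about the invasion (section 8, beginning). -/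
def InvDStatement : Prop :=
  ∀ (d : ℕ) (P Q : Set (Eu d)) (o : Eu d), LF P → LF Q →
    (∀ k, inv P o k ⊆ inv P o (k + 1) ∧ inv P o k ⊆ insert o P ∧ (inv P o k).Finite) ∧
    (o ∉ P → ∀ k, P ∩ wet P o k = inv P o k \ {o}) ∧
    (∀ k, Q ∩ wet P o k = P ∩ wet P o k →
      (∀ j ≤ k, inv Q o j = inv P o j) ∧ (∀ j < k, lab Q o j = lab P o j) ∧
        wet Q o k = wet P o k) ∧
    (∀ (th : ℕ → ℝ) (i : ℕ), (∀ j, th j ≤ 2) → good th P o i →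
      inv P o i ⊆ bal o (2 * i) ∧ wet P o i ⊆ nbd 2 (inv P o i)) ∧
    (∀ (th : ℕ → ℝ) (i : ℕ), (∀ j, th j ≤ 2) → good th P o i →
      P ∩ bal o (2 * i + 2) = Q ∩ bal o (2 * i + 2) →
      good th Q o i ∧ ∀ j ≤ i, inv Q o j = inv P o j) ∧
    (∀ (D : Set (Eu d)) (m : ℕ), Disjoint D (inv P o m) → ∀ j ≤ m, inv (P \ D) o j = inv P o j) ∧
    (GenO P o → ∀ k, (inv P o k).ncard ≤ k + 1 ∧
      ((k : ℕ∞) ≤ P.encard → (inv P o k).ncard = k + 1)) ∧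
    (GenO P o → ∀ (r : ℝ) (m n : ℕ), 0 ≤ r → (CLr r P (inv P o m)).Finite →
      n + 1 ≤ (CLr r P (inv P o m)).ncard → ∀ j, m ≤ j → j < n → lab P o j ≤ ENNReal.ofReal r)

/-- INVM. Measurability of the invasion; `wet` is a stopping set. -/
def InvMStatement : Prop :=
  ∀ (d k : ℕ),
    MeasurableSet {q : Eu d × Eu d × Cfg (Eu d) | q.2.1 ∈ inv (pt q.2.2) q.1 k} ∧
    Measurable (fun q : Eu d × Cfg (Eu d) => lab (pt q.2) q.1 k) ∧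
    MeasurableSet {q : Eu d × Eu d × Cfg (Eu d) | q.2.1 ∈ wet (pt q.2.2) q.1 k} ∧
    (∀ th : ℕ → ℝ, MeasurableSet {q : Eu d × Cfg (Eu d) | good th (pt q.2) q.1 k}) ∧
    (∀ (T : Type) [MeasurableSpace T] (f : T → Eu d → ℝ≥0∞),
      Measurable (fun q : T × Eu d => f q.1 q.2) →
      Measurable (fun q : T × Eu d × Cfg (Eu d) => nnew (pt q.2.2) q.2.1 k (f q.1))) ∧
    ∀ o : Eu d, Stop (fun P => wet P o k)

/-- GENF. Almost surely general position, also with two given points. -/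
def GenFStatement : Prop :=
  ∀ (d : ℕ) (lam : ℝ≥0) (V : Set (Eu d)) (x y : Eu d), 1 ≤ d → Dom V → x ≠ y →
    ∀ᵐ ω ∂PL (leb lam V), x ∉ pt ω ∧ y ∉ pt ω ∧ Gen (insert x (insert y (pt ω)))

/-- STATZ. Lower tail of the number of points of `R` connected to green points ((8.1) part (1)). -/
def StatZStatement : Prop :=
  ∀ (d : ℕ) (lam : ℝ≥0) (κ : ℕ) (A : ℝ≥0), Crit d lam κ A →
    ∃ (C : ℝ) (h0 : ℝ≥0), 0 < C ∧ 0 < h0 ∧ h0 ≤ 1 ∧ ∀ (r : ℝ) (h : ℝ≥0) (m : ℕ), 1 ≤ r → r ≤ 2 →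
      0 < h → h ≤ h0 → 1 ≤ m → ∃ L0 : ℝ, ∀ (L : ℝ) (R : Finset (Eu d)) (Δ : ℝ), L0 ≤ L →
        R.card = m → (R : Set (Eu d)) ⊆ bal 0 (2 * m) → 1 ≤ Δ → Dens (R : Set (Eu d)) Δ →
        ((PL (leb (lamr d lam r * (1 - h)) (bal (0 : Eu d) L))).prod
          (PL (leb (lamr d lam r * h) (bal (0 : Eu d) L))))
          {q | num R (gco r (pt q.1) (pt q.2)) < ENNReal.ofReal (m / 2) * Mag d lam 1 h}
        ≤ ENNReal.ofReal (C * (Δ * (m : ℝ) ^ (1 / (400 * (κ : ℝ))) /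
            (m * (Mag d lam 1 h).toReal)))

/-- STATD. Deterministic decomposition in (8.1) part (2). -/
def StatDStatement : Prop :=
  ∀ (d : ℕ) (r : ℝ) (N G W : Set (Eu d)) (R : Finset (Eu d)), 0 ≤ r → N.Finite → G.Finite →
    num R (gco r N G) ≤ num R (fun x => x ∈ nbd r (LLs r N G W)) + Zbc r N G W R

/-- STATE. Mean of `Zbc` given `LL` ((8.1) part (2)). -/
def StatEStatement : Prop :=
  ∀ (d : ℕ) (r : ℝ) (lam h : ℝ≥0) (U W : Set (Eu d)) (R : Finset (Eu d)) (q₂ T : ℝ≥0∞),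
    1 ≤ d → 0 ≤ r → h ≤ 1 → Dom U → MeasurableSet W →
    (∀ v, ∑ x ∈ R, tp (ad r) (leb lam U) v x ≤ T) →
    ∫⁻ q, ind (volume (nbd r (LLs r (pt q.1) (pt q.2) W) ∩ W) ≤ q₂) *
        Zbc r (pt q.1) (pt q.2) W R ∂((PL (leb (lam * (1 - h)) U)).prod (PL (leb (lam * h) U)))
      ≤ (lam * q₂ + lam * h * volume (W ∩ U)) * T

/-- STAT (8.1). Static lemma. -/
def StatStatement : Prop :=
  ∀ (d : ℕ) (lam : ℝ≥0) (κ : ℕ) (A : ℝ≥0), Crit d lam κ A →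
    ∃ (C : ℝ) (h0 : ℝ≥0), 0 < C ∧ 0 < h0 ∧ h0 ≤ 1 ∧ ∀ (r r' : ℝ) (h : ℝ≥0) (m : ℕ), 1 ≤ r →
      r ≤ r' → r' ≤ 2 → 0 < h → h ≤ h0 → 1 ≤ m → ∃ L0 : ℝ, ∀ (L : ℝ) (R : Finset (Eu d)) (Δ q₀ : ℝ)
        (W : Set (Eu d)), L0 ≤ L → R.card = m → (R : Set (Eu d)) ⊆ bal 0 (2 * m) → 1 ≤ Δ →
        Dens (R : Set (Eu d)) Δ → 0 < q₀ → MeasurableSet W → W ⊆ nbd 2 (R : Set (Eu d)) →
        ((PL (leb (lamr d lam r * (1 - h)) (bal (0 : Eu d) L))).prod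
          (PL (leb (lamr d lam r * h) (bal (0 : Eu d) L))))
          {q | volume (nbd r (LLs r (pt q.1) (pt q.2) W) ∩ nbd r' (R : Set (Eu d)))
            < ENNReal.ofReal q₀}
        ≤ ENNReal.ofReal (C * (Δ * (m : ℝ) ^ (1 / (400 * (κ : ℝ))) *
              (1 / (m * (Mag d lam 1 h).toReal) + q₀ / (m * (Mag d lam 1 h).toReal)
                + h / (Mag d lam 1 h).toReal)
            + (Mag d lam 1 h).toReal * (volume (W \ nbd r' (R : Set (Eu d)))).toReal / q₀))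

/-- SMP3. Strong Markov property for a stopping set of the union of three independent processes. -/
def Smp3Statement : Prop :=
  ∀ (d : ℕ) (ρn ρg ρs : Measure (Eu d)) [IsFiniteMeasure ρn] [IsFiniteMeasure ρg]
    [IsFiniteMeasure ρs] [NullSingletonClass ρn] [NullSingletonClass ρg] [NullSingletonClass ρs]
    (W : Set (Eu d) → Set (Eu d)) (F : Set (Eu d) → Set (Eu d) → Set (Eu d) → ℝ≥0∞), Stop W →
    Measurable (fun q : Cfg (Eu d) × Cfg (Eu d) × Cfg (Eu d) => F (pt q.1) (pt q.2.1) (pt q.2.2)) →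
    ∫⁻ a, ∫⁻ b, ∫⁻ c, F ((pt a ∪ pt b ∪ pt c) ∩ W (pt a ∪ pt b ∪ pt c))
        (pt a \ W (pt a ∪ pt b ∪ pt c)) (pt b \ W (pt a ∪ pt b ∪ pt c)) ∂PL ρs ∂PL ρg ∂PL ρn
      = ∫⁻ a, ∫⁻ b, ∫⁻ c, (∫⁻ a', ∫⁻ b', F ((pt a ∪ pt b ∪ pt c) ∩ W (pt a ∪ pt b ∪ pt c))
        (pt a' \ W (pt a ∪ pt b ∪ pt c)) (pt b' \ W (pt a ∪ pt b ∪ pt c)) ∂PL ρg ∂PL ρn)
        ∂PL ρs ∂PL ρg ∂PL ρn

/-- SPR (8.2). Sprinkling lemma. -/
def SprStatement : Prop :=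
  ∀ (d : ℕ) (ρn ρg : Measure (Eu d)) [IsFiniteMeasure ρn] [IsFiniteMeasure ρg]
    [NullSingletonClass ρn] [NullSingletonClass ρg] (lam₂ : ℝ≥0) (U : Set (Eu d)) (h : ℝ≥0)
    (r r' q₀ : ℝ) (o : Eu d) (m n : ℕ) (H : Set (Eu d) → Prop), 1 ≤ d → Dom U → 0 ≤ r → r ≤ r' →
    0 ≤ q₀ → ρg ≤ h • (ρn + ρg + leb lam₂ U) → ME H →
    ((PL ρn).prod ((PL ρg).prod (PL (leb lam₂ U))))
      {q | H (pt q.1 ∪ pt q.2.1 ∪ pt q.2.2) ∧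
        (CLr r' (pt q.1 ∪ pt q.2.1 ∪ pt q.2.2)
          (inv (pt q.1 ∪ pt q.2.1 ∪ pt q.2.2) o m)).ncard ≤ n}
    ≤ ((PL ρn).prod ((PL ρg).prod (PL (leb lam₂ U))))
      {q | H (pt q.1 ∪ pt q.2.1 ∪ pt q.2.2) ∧
        volume (nbd r (LLs r (pt q.1) (pt q.2.1) ∅) ∩
          nbd r' (inv (pt q.1 ∪ pt q.2.1 ∪ pt q.2.2) o m) ∩ U) < ENNReal.ofReal q₀}
      + ENNReal.ofReal (Real.exp (-(lam₂ * q₀)))
      + n * h * ((PL ρn).prod ((PL ρg).prod (PL (leb lam₂ U))))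
        {q | H (pt q.1 ∪ pt q.2.1 ∪ pt q.2.2)}

/-- DENS. No unit ball in `B_{2m+2}` contains many points. -/
def DensStatement : Prop :=
  ∀ (d : ℕ) (lam : ℝ≥0) (u : ℝ), 1 ≤ d → 0 < u → u ≤ 1 → ∃ (c : ℝ) (M : ℕ), 0 < c ∧
    ∀ (m : ℕ) (L : ℝ), M ≤ m → PL (leb lam (bal (0 : Eu d) L))
      {ω | ∃ v ∈ bal (0 : Eu d) (2 * m + 2), (m : ℝ) ^ u - 1 < ((pt ω ∩ bal v 1).ncard : ℝ)}
      ≤ ENNReal.ofReal (Real.exp (-(c * (m : ℝ) ^ u)))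

/-- WETV. Volume of the explored region outside the `1 + e_k`-neighbourhood. -/
def WetVStatement : Prop :=
  ∀ (d κ : ℕ), 1 ≤ d → 1 ≤ κ → ∃ C : ℝ, 0 < C ∧ ∀ (m0 k : ℕ) (P : Set (Eu d)) (o : Eu d), 1 ≤ m0 →
    P.Finite → GenO P o → good (thr κ m0) P o (2 ^ k * m0) →
    volume (wet P o (2 ^ k * m0) \
        nbd (1 + ((2 ^ k * m0 : ℕ) : ℝ) ^ (-(1 / (6 * (κ : ℝ))))) (inv P o (2 ^ k * m0)))
      ≤ ENNReal.ofReal (C * ((2 ^ k * m0 : ℕ) : ℝ) ^ (1 - 1 / (6 * (κ : ℝ))))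

/-- GVOL. `P(good i)` does not depend on the volume; it decreases in `i`. -/
def GVolStatement : Prop :=
  ∀ (d : ℕ) (lam : ℝ≥0) (th : ℕ → ℝ) (L L' : ℝ) (i : ℕ), 1 ≤ d → (∀ j, th j ≤ 2) →
    2 * i + 2 ≤ L → 2 * i + 2 ≤ L' → pgood d lam th L i = pgood d lam th L' i

/-- STAGE (8.3). -/
def StageStatement : Prop :=
  ∀ (d : ℕ) (lam : ℝ≥0) (κ : ℕ) (A : ℝ≥0), Crit d lam κ A →
    ∃ (C c : ℝ) (M : ℕ), 0 < C ∧ 0 < c ∧ ∀ (m0 k : ℕ) (L : ℝ), M ≤ m0 →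
      2 * (2 ^ (k + 1) * m0 : ℕ) + 2 ≤ L →
      pgood d lam (thr κ m0) L (2 ^ k * m0) ≤ pgood d lam (thr κ m0) L (2 ^ (k + 1) * m0)
        + ENNReal.ofReal (C * ((2 ^ k * m0 : ℕ) : ℝ) ^ (-(1 / (25 * (κ : ℝ))))) *
            pgood d lam (thr κ m0) L (2 ^ k * m0)
        + ENNReal.ofReal (Real.exp (-(c * ((2 ^ k * m0 : ℕ) : ℝ) ^ (1 / (400 * (κ : ℝ))))))

/-- POS (8.4). -/
def PosStatement : Prop :=
  ∀ (d : ℕ) (lam : ℝ≥0) (κ : ℕ) (A : ℝ≥0), Crit d lam κ A →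
    ∃ M : ℕ, ∀ m0 : ℕ, M ≤ m0 → ∃ p₀ : ℝ≥0, 0 < p₀ ∧ ∀ (i : ℕ) (L : ℝ), 2 * i + 2 ≤ L →
      (p₀ : ℝ≥0∞) ≤ pgood d lam (thr κ m0) L i

/-! ## Section 9 -/

/-- POND (9.1), deterministic. -/
def PondStatement : Prop :=
  ∀ (d : ℕ) (P : Set (Eu d)) (o : Eu d) (th : ℕ → ℝ) (n : ℕ) (f : Eu d → ℝ≥0∞), P.Finite → o ∉ P →
    occ th P o n f ≤ ∑ j ∈ Finset.range n, ind (att P o j ∧ good th P o j) *
      nnew P o j (fun z => f z + ∑' p : (P \ wet P o j : Set (Eu d)),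
        ind (Con (ad 1) (P \ wet P o j) z p) * f p)

/-- ATT (9.1), expectation. -/
def AttStatement : Prop :=
  ∀ (d : ℕ) (lam : ℝ≥0) (th : ℕ → ℝ) (L : ℝ) (n : ℕ) (f F : Eu d → ℝ≥0∞), 1 ≤ d →
    Measurable f → Measurable F → (∀ (V : Set (Eu d)) (z : Eu d), Dom V → wt lam V f z ≤ F z) →
    mun d lam th L n f ≤ ∑ j ∈ Finset.range n,
      ∫⁻ ω, ind (att (pt ω) 0 j ∧ good th (pt ω) 0 j) * nnew (pt ω) 0 j F
        ∂PL (leb lam (bal (0 : Eu d) L))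

/-- SHEL (9.2). -/
def ShelStatement : Prop :=
  ∀ (d : ℕ) (lam : ℝ≥0) (th : ℕ → ℝ) (L e : ℝ) (a b : ℕ) (F Fb : Eu d → ℝ≥0∞), 1 ≤ d →
    Measurable F → Measurable Fb → (∀ z u, dist z u ≤ 2 → F z ≤ Fb u) → 0 ≤ e → e ≤ 1 →
    (∀ j, a ≤ j → j < b → th j ≤ 1 + e) →
    ∑ j ∈ Finset.Ico a b, ∫⁻ ω, ind (att (pt ω) 0 (j + 1) ∧ good th (pt ω) 0 (j + 1)) *
        nnew (pt ω) 0 (j + 1) F ∂PL (leb lam (bal (0 : Eu d) L))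
      ≤ lam * ENNReal.ofReal ((1 + e) ^ d - 1) * volume (bal (0 : Eu d) 1) *
        mun d lam th L b Fb

/-- majorant of `G_s` near `u` -/
noncomputable def gmaj (d κ : ℕ) (C s : ℝ) (u : Eu d) : ℝ≥0∞ :=
  ENNReal.ofReal (if ‖u‖ ≤ 4 * s then C * s ^ κ else C * s ^ d / ‖u‖ ^ (d - κ))

/-- GSB. `G_s` and its majorant. -/
def GsbStatement : Prop :=
  ∀ (d : ℕ) (lam : ℝ≥0) (κ : ℕ) (A : ℝ≥0), Crit d lam κ A →
    ∃ C : ℝ, 0 < C ∧ ∀ s : ℝ, 1 ≤ s → ∃ F : Eu d → ℝ≥0∞, Measurable F ∧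
      (∀ (V : Set (Eu d)) (z : Eu d), Dom V → wt lam V (fun b => ind (b ∈ bal 0 s)) z ≤ F z) ∧
      ∀ z u : Eu d, dist z u ≤ 2 → F z ≤ gmaj d κ C s u

/-- REC (9.3). The recursive inequality. -/
def RecStatement : Prop :=
  ∀ (d : ℕ) (lam : ℝ≥0) (κ : ℕ) (A : ℝ≥0), Crit d lam κ A →
    ∃ C : ℝ, 0 < C ∧ ∀ (m0 k : ℕ) (L s : ℝ), 1 ≤ m0 → 1 ≤ s →
      mun d lam (thr κ m0) L (2 ^ k * m0) (fun b => ind (b ∈ bal 0 s))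
        ≤ ENNReal.ofReal (C * s ^ κ) + ∑ l ∈ Finset.range k,
          ENNReal.ofReal (C * ((2 ^ l * m0 : ℕ) : ℝ) ^ (-(1 / (6 * (κ : ℝ))))) *
            mun d lam (thr κ m0) L (2 ^ (l + 1) * m0) (gmaj d κ 1 s)

/-- GROW (9.3). Volume growth of the invasion tree. -/
def GrowStatement : Prop :=
  ∀ (d : ℕ) (lam : ℝ≥0) (κ : ℕ) (A : ℝ≥0), Crit d lam κ A →
    ∃ M : ℕ, ∀ m0 : ℕ, M ≤ m0 → ∃ C : ℝ, 0 < C ∧ ∀ (n : ℕ) (L s : ℝ), 1 ≤ s →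
      mun d lam (thr κ m0) L n (fun b => ind (b ∈ bal 0 s)) ≤ ENNReal.ofReal (C * s ^ (13 * κ ^ 2))

/-- ROTM (9.4). -/
def RotMStatement : Prop :=
  ∀ (d : ℕ) (lam : ℝ≥0) (th : ℕ → ℝ) (L : ℝ) (n k : ℕ) (C : ℝ), 1 ≤ d → 0 < C → k + 1 ≤ d →
    (∀ s : ℝ, 1 ≤ s → mun d lam th L n (fun b => ind (b ∈ bal 0 s)) ≤ ENNReal.ofReal (C * s ^ k)) →
    (∀ (e : Eu d ≃ₗᵢ[ℝ] Eu d) (f : Eu d → ℝ≥0∞), Measurable f →
      mun d lam th L n (fun b => f (e b)) = mun d lam th L n f) ∧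
    ∀ v : Eu d, 5 ≤ ‖v‖ → mun d lam th L n (fun b => ind (b ∈ bal v 4))
      ≤ ENNReal.ofReal (10 ^ d * 3 ^ k * C / ‖v‖ ^ (d - 1 - k))

end Pool.Agent.Lib.MP_5349a4_pr
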