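import Pool.Agent.Lib.MP_5349a4_pr.M.Iface1
import Pool.Agent.Lib.MP_5349a4_pr.M.Defs2

/-!
# Interfaces, part 2: reverse inequality, bootstrap, Theorem A (sections 3-6 of Paper.md)
-/

set_option autoImplicit false
open MeasureTheory Set
open scoped ENNReal NNReal

namespace Pool.Agent.Lib.MP_5349a4_pr

/-- TAUF. The facts about `tau` (from HPB, SLG, CONM, IMG, CLB, ...). -/
def TauFStatement : Prop := ∀ d : ℕ, 1 ≤ d → TauFacts d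

/-- REV (4.1). -/
def RevStatement : Prop :=
  ∀ d : ℕ, 1 ≤ d → ∀ lam : ℝ≥0, chi d lam ≠ ∞ → ∀ s : ℝ, 0 ≤ s →
    phi d lam s ≤ 1 + Err d lam s

/-- SLB. Simon-Lieb for a ball around the starting point, in centred form; properties of `ex`. -/
def SlbStatement : Prop :=
  ∀ d : ℕ, 1 ≤ d → TauFacts d →
    (∀ (lam : ℝ≥0) (V : Set (Eu d)) (f : Eu d → ℝ≥0∞) (x : Eu d) (s : ℝ), Dom V → Measurable f →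
      0 ≤ s → wt lam V f x ≤ wt lam (V ∩ bal x s) f x +
        ∫⁻ y, ex lam s y * (ind (x + y ∈ V) * wt lam V f (x + y))) ∧
    (∀ (lam : ℝ≥0) (s : ℝ), 0 ≤ s → Measurable (ex lam s : Eu d → ℝ≥0∞) ∧
      (∀ (e : Eu d ≃ₗᵢ[ℝ] Eu d) (y : Eu d), ex lam s (e y) = ex lam s y) ∧
      (∀ y : Eu d, ex lam s y ≠ 0 → s < ‖y‖ ∧ ‖y‖ ≤ s + 1)) ∧
    (∀ lam : ℝ≥0, phi d lam 0 = lam * volume (bal (0 : Eu d) 1)) ∧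
    (∀ (lam : ℝ≥0) (y : Eu d), ex lam 0 y = lam * ind (0 < ‖y‖ ∧ ‖y‖ ≤ 1)) ∧
    (∀ (lam : ℝ≥0) (x : Eu d) (r : ℝ), 0 ≤ r → wt lam (bal x r) (fun _ => 1) x = vol d lam r) ∧
    (∀ (lam : ℝ≥0) (f : Eu d → ℝ≥0∞) (x : Eu d) (V V' : Set (Eu d)), Dom V → Dom V' → V ⊆ V' →
      wt lam V f x ≤ wt lam V' f x)

/-- ROT. Moments of a rotation invariant density. -/
def RotStatement : Prop :=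
  ∀ d : ℕ, 1 ≤ d → ∀ w : Eu d → ℝ≥0∞, Measurable w →
    (∀ (e : Eu d ≃ₗᵢ[ℝ] Eu d) (y : Eu d), w (e y) = w y) → ∀ u : Eu d, ‖u‖ = 1 →
    (d : ℝ≥0∞) * ∫⁻ y, w y * ENNReal.ofReal ((inner ℝ y u) ^ 2)
      = ∫⁻ y, w y * ENNReal.ofReal (‖y‖ ^ 2) ∧
    ∫⁻ y, w y * ENNReal.ofReal (inner ℝ y u) = ∫⁻ y, w y * ENNReal.ofReal (-(inner ℝ y u))

/-- COMPAR (5.1), centred form. -/
def ComparStatement : Prop :=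
  ∀ (d : ℕ) (D : Set (Eu d)) (Φ F a : Eu d → ℝ≥0∞) (k : Eu d → Eu d → ℝ≥0∞) (g b M m : ℝ≥0),
    0 < g → g ≤ 1 → 0 < m → (∀ x ∈ D, Φ x ≤ M) → (∀ x ∈ D, (m : ℝ≥0∞) ≤ F x ∧ F x ≠ ∞) →
    (∀ x ∈ D, Φ x ≤ a x + ∫⁻ y, k x y * (ind (x + y ∈ D) * Φ (x + y))) →
    (∀ x ∈ D, ∫⁻ y, k x y * (ind (x + y ∈ D) * F (x + y)) ≤ (1 - g : ℝ≥0) * F x) →
    (∀ x ∈ D, a x ≤ b * F x) →
    ∀ x ∈ D, Φ x ≤ ((b / g : ℝ≥0) : ℝ≥0∞) * F x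

/-- STEP (5.2). -/
def StepStatement : Prop :=
  ∀ d : ℕ, 1 ≤ d → TauFacts d → ∀ lam : ℝ≥0, Hyp d lam → ∀ (r : ℝ) (x : Eu d), ‖x‖ ≤ r →
    ∫⁻ y, ex lam (sr r x) y * Fr r (x + y) ≤ (1 - gd d : ℝ≥0) * Fr r x

/-- VOL (5.3). -/
def VolStatement : Prop :=
  ∀ d : ℕ, 1 ≤ d → TauFacts d → ∀ lam : ℝ≥0, Hyp d lam →
    (∀ (n : ℕ) (r : ℝ) (x : Eu d), r < 2 ^ (n + 1) → ‖x‖ ≤ r →
      wt lam (bal 0 r) (fun _ => 1) x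
        ≤ (6400 * (d : ℝ≥0∞)) ^ (n + 1) * ENNReal.ofReal (Real.sqrt (r + 3 - ‖x‖))) ∧
    ∀ n : ℕ, vol d lam (2 ^ n) ≤ (Gam d : ℝ≥0∞) ^ (n + 1)

/-- DEP (5.4). -/
def DepStatement : Prop :=
  ∀ d : ℕ, 1 ≤ d → TauFacts d → ∀ lam : ℝ≥0, Hyp d lam → ∀ (i : ℕ) (s : ℝ), 0 ≤ s →
    dep d lam s (2 ^ i) ≤ (Gam d : ℝ≥0∞) ^ (i + 3)

/-- RAD. The function `1/|x|` is a strict supersolution for the steps `|x|/4` (inside (5.5)). -/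
def RadStatement : Prop :=
  ∀ d : ℕ, 29 ≤ d → TauFacts d → ∀ lam : ℝ≥0, Hyp d lam → ∀ x : Eu d, 12 ≤ ‖x‖ →
    ∫⁻ y, ex lam (‖x‖ / 4) y * ENNReal.ofReal (1 / ‖x + y‖)
      ≤ ENNReal.ofReal ((1 - 1 / 128) / ‖x‖)

/-- VST (5.5). -/
def VstStatement : Prop :=
  ∀ d : ℕ, 29 ≤ d → TauFacts d → ∀ lam : ℝ≥0, Hyp d lam →
    ∀ (i : ℕ) (V : Set (Eu d)) (x y : Eu d), Dom V →
      wt lam V (fun b => ind (b ∈ bal y (2 ^ i))) x ≤ (Gam d : ℝ≥0∞) ^ (i + 9)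

/-- PTW (5.6). -/
def PtwStatement : Prop :=
  ∀ d : ℕ, 40 ≤ d → TauFacts d → ∀ lam : ℝ≥0, Hyp d lam →
    ∀ (j : ℕ) (V : Set (Eu d)) (x y : Eu d), Dom V → 1 ≤ j → 2 ^ j ≤ dist x y →
      tau lam V x y * 2 ^ (j * (d - 1)) ≤ 2 ^ d * (Gam d : ℝ≥0∞) ^ (j + 12)

/-- TINF. Elementary facts about `tI`. -/
def TInfStatement : Prop :=
  ∀ d : ℕ, 1 ≤ d → TauFacts d → ∀ lam : ℝ≥0,
    Measurable (tI lam : Eu d → ℝ≥0∞) ∧ (∀ z : Eu d, tI lam z ≤ 1) ∧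
    (∀ z : Eu d, tI lam (-z) = tI lam z) ∧
    (∀ (V : Set (Eu d)) (x y : Eu d), Dom V → tau lam V x y ≤ tI lam (y - x)) ∧
    (∀ z : Eu d, tI lam z ≤ ind (‖z‖ ≤ 1) + lam * conv (fun u => ind (‖u‖ ≤ 1)) (tI lam) z) ∧
    chi d lam = 1 + lam * ∫⁻ z : Eu d, tI lam z ∧
    (∀ (R : ℝ) (c : ℝ≥0∞), (∀ (V : Set (Eu d)), Dom V →
      wt lam V (fun b => ind (b ∈ bal 0 R)) 0 ≤ c) →
      lam * ∫⁻ z in bal (0 : Eu d) R, tI lam z ≤ c)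

/-- FAR (5.7). -/
def FarStatement : Prop :=
  ∃ d0 : ℕ, ∀ d ≥ d0, TauFacts d → ∀ lam : ℝ≥0, Hyp d lam →
    (∀ i : ℕ, 1 ≤ i →
      Kt d lam (2 ^ i) * 2 ^ (i * (d - 1)) ≤ 20 * 2 ^ d * (Gam d : ℝ≥0∞) ^ (4 * i + 42)) ∧
    (∀ j : ℕ, j ≤ 3 →
      (lam : ℝ≥0∞) ^ (j + 1) * ∫⁻ z in bal (0 : Eu d) 16, cpow (tI lam) j z
        ≤ 2 * (Gam d : ℝ≥0∞) ^ 61)

/-- LENS. Volume of the intersection of two unit balls, and the bound for `D^{*3}`. -/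
def LensStatement : Prop :=
  ∀ d : ℕ, 1 ≤ d → ∀ x : Eu d,
    cpow (fun u : Eu d => ind (‖u‖ ≤ 1)) 2 x
      ≤ 2 * ENNReal.ofReal ((9 / 10 : ℝ) ^ d) * volume (bal (0 : Eu d) 1) ^ 2

/-- NEAR (5.8). -/
def NearStatement : Prop :=
  ∃ (d0 : ℕ) (C : ℝ≥0), ∀ d ≥ d0, TauFacts d → ∀ lam : ℝ≥0, Hyp d lam →
    Kt d lam 0 ≤ C * ENNReal.ofReal ((9 / 10 : ℝ) ^ d) * (Gam d : ℝ≥0∞) ^ 61

/-- ERRB (5.9). -/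
def ErrBStatement : Prop :=
  ∃ d0 : ℕ, ∀ d ≥ d0, TauFacts d → ∀ lam : ℝ≥0, Hyp d lam → ∀ s : ℝ, 0 ≤ s →
    Err d lam s ≤ (gd d / 2 : ℝ≥0)

/-- SUBC (3.2), (3.3) and the first facts of section 6. -/
def SubcStatement : Prop :=
  ∀ d : ℕ, 1 ≤ d → TauFacts d →
    (∀ (lam : ℝ≥0) (s : ℝ), 0 ≤ s → phi d lam s < 1 → chi d lam ≠ ∞) ∧
    (∀ (lam lam' : ℝ≥0) (s : ℝ), 0 ≤ s → lam ≤ lam' → phi d lam s ≤ phi d lam' s) ∧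
    (∀ (L s₁ : ℝ≥0), ∃ C : ℝ≥0, ∀ (lam lam' : ℝ≥0) (s : ℝ), 0 ≤ s → s ≤ s₁ → lam ≤ lam' →
      lam' ≤ L → phi d lam' s ≤ phi d lam s + C * ((lam' - lam : ℝ≥0) : ℝ≥0∞)) ∧
    (∀ (lam : ℝ≥0), chi d lam ≠ ∞ → ∀ ε : ℝ≥0, 0 < ε → ∃ s₁ : ℝ≥0, ∀ (lam' : ℝ≥0) (s : ℝ),
      lam' ≤ lam → (s₁ : ℝ) ≤ s → phi d lam' s ≤ ε) ∧
    (∀ lam : ℝ≥0, (lam : ℝ≥0∞) * volume (bal (0 : Eu d) 1) ≤ 1 / 2 → ∀ s : ℝ, 0 ≤ s →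
      phi d lam s ≤ 1)

/-- BOOT (section 6): the critical point. -/
def BootStatement : Prop :=
  ∃ d0 : ℕ, ∀ d ≥ d0, ∃ lam : ℝ≥0, 0 < lam ∧ Hyp d lam ∧ ∀ s : ℝ, 0 ≤ s → 1 ≤ phi d lam s

/-- THMA. Theorem A. -/
def ThmAStatement : Prop :=
  ∃ d0 : ℕ, ∀ d ≥ d0, ∃ (lam : ℝ≥0) (κ : ℕ) (A : ℝ≥0), Crit d lam κ A

end Pool.Agent.Lib.MP_5349a4_pr
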